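import Pool.Agent.H56.HS.Dich

/-!
# The squares: the discrete bound
-/

set_option autoImplicit false

namespace Pool.Agent.H56.HS

open Finset Pool.Agent.W10.HS

lemma sum_diff {ι : Type} (T : Finset ι) (x : ι → ℕ) (hinj : ∀ k ∈ T, ∀ k' ∈ T, x k = x k' → k = k')
    (H N' : ℕ) (hH : 1 ≤ H) (hN : ∀ k ∈ T, H * x k ≤ N') (F : ℝ → ℝ) (h0 : ∀ y, 0 ≤ F y) (h1 : ∀ y, F y ≤ 1)
    (heven : ∀ y, F (-y) = F y) (θ : ℝ) (k : ι) (hk : k ∈ T) :
    ∑ k' ∈ T, F (H * ((x k : ℝ) - x k') * θ) ≤ 1 + 2 * ∑ n ∈ Icc 1 N', F (n * θ) := by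
  classical
  rw [← sum_filter_add_sum_filter_not T (fun k' => x k' < x k),
    ← sum_filter_add_sum_filter_not (T.filter (fun k' => ¬ x k' < x k)) (fun k' => x k < x k')]
  have e1 : ∑ k' ∈ T.filter (fun k' => x k' < x k), F (H * ((x k : ℝ) - x k') * θ) ≤ ∑ n ∈ Icc 1 N', F (n * θ) := by
    have e2 : ∑ k' ∈ T.filter (fun k' => x k' < x k), F (H * ((x k : ℝ) - x k') * θ) =
        ∑ n ∈ (T.filter (fun k' => x k' < x k)).image (fun k' => H * (x k - x k')), F (n * θ) := by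
      rw [sum_image]
      · apply sum_congr rfl
        intro k' hk'
        rw [mem_filter] at hk'
        congr 2
        push_cast [Nat.cast_sub hk'.2.le]
        ring
      · intro u hu v hv huv
        have hu2 := mem_filter.1 (mem_coe.1 hu)
        have hv2 := mem_filter.1 (mem_coe.1 hv)
        simp only at huv
        have h2 := Nat.eq_of_mul_eq_mul_left (by omega) huv
        exact hinj u hu2.1 v hv2.1 (by omega)
    rw [e2]
    apply sum_le_sum_of_subset_of_nonneg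
    · intro n hn
      rw [mem_image] at hn
      obtain ⟨k', hk', rfl⟩ := hn
      rw [mem_filter] at hk'
      rw [mem_Icc]
      refine ⟨Nat.mul_pos (by omega) (by omega), ?_⟩
      exact (Nat.mul_le_mul_left _ (Nat.sub_le _ _)).trans (hN k hk)
    · intro n _ _
      exact h0 _
  have e3 : ∑ k' ∈ (T.filter (fun k' => ¬ x k' < x k)).filter (fun k' => x k < x k'), F (H * ((x k : ℝ) - x k') * θ) ≤
      ∑ n ∈ Icc 1 N', F (n * θ) := by
    have e2 : ∑ k' ∈ (T.filter (fun k' => ¬ x k' < x k)).filter (fun k' => x k < x k'), F (H * ((x k : ℝ) - x k') * θ) =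
        ∑ n ∈ ((T.filter (fun k' => ¬ x k' < x k)).filter (fun k' => x k < x k')).image
          (fun k' => H * (x k' - x k)), F (n * θ) := by
      rw [sum_image]
      · apply sum_congr rfl
        intro k' hk'
        rw [mem_filter] at hk'
        rw [← heven]
        congr 1
        push_cast [Nat.cast_sub hk'.2.le]
        ring
      · intro u hu v hv huv
        have hu2 := mem_filter.1 (mem_coe.1 hu)
        have hv2 := mem_filter.1 (mem_coe.1 hv)
        simp only at huv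
        have h2 := Nat.eq_of_mul_eq_mul_left (by omega) huv
        exact hinj u (mem_filter.1 hu2.1).1 v (mem_filter.1 hv2.1).1 (by omega)
    rw [e2]
    apply sum_le_sum_of_subset_of_nonneg
    · intro n hn
      rw [mem_image] at hn
      obtain ⟨k', hk', rfl⟩ := hn
      rw [mem_filter, mem_filter] at hk'
      rw [mem_Icc]
      refine ⟨Nat.mul_pos (by omega) (by omega), ?_⟩
      exact (Nat.mul_le_mul_left _ (Nat.sub_le _ _)).trans (hN k' hk'.1.1)
    · intro n _ _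
      exact h0 _
  have e4 : ∑ k' ∈ (T.filter (fun k' => ¬ x k' < x k)).filter (fun k' => ¬ x k < x k'), F (H * ((x k : ℝ) - x k') * θ) ≤
      1 := by
    calc _ ≤ ∑ _k' ∈ (T.filter (fun k' => ¬ x k' < x k)).filter (fun k' => ¬ x k < x k'), (1 : ℝ) :=
          sum_le_sum fun _ _ => h1 _
      _ = ((T.filter (fun k' => ¬ x k' < x k)).filter (fun k' => ¬ x k < x k')).card := by
          rw [sum_const, nsmul_eq_mul, mul_one]
      _ ≤ 1 := by
          have : ((T.filter (fun k' => ¬ x k' < x k)).filter (fun k' => ¬ x k < x k')).card ≤ 1 := by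
            rw [card_le_one]
            intro u hu v hv
            rw [mem_filter, mem_filter] at hu hv
            exact hinj u hu.1.1 v hv.1.1 (by omega)
          exact_mod_cast this
  linarith

/-- the length of a window -/
def ww (b t : ℕ) : ℕ := 16 * (4 + b * t)

/-- the exponent -/
def JJ (b : ℕ) : ℕ := 8 * b ^ 2 * (7 + b)

/-- the number of windows in a block -/
def rr (b j : ℕ) : ℕ := 2 + 2 * b + 64 * b ^ 2 * j

/-- the number of digits -/
def mm (b t j : ℕ) : ℕ := (3 * JJ b * (rr b j + 1) + 2) * ww b t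

lemma JJ_pos {b : ℕ} (hb : 2 ≤ b) : 1 ≤ JJ b := by
  unfold JJ
  exact Nat.one_le_iff_ne_zero.2 (by positivity)

lemma b_kap {b : ℕ} (hb : 2 ≤ b) : (b : ℝ) * kap b ^ JJ b ≤ 1 / 128 := by
  have h1 : kap b ^ JJ b ≤ (1 / 2) ^ (7 + b) := kap_pow hb (7 + b)
  have h2 : (b : ℝ) ≤ 2 ^ b := by exact_mod_cast Nat.lt_two_pow_self.le
  calc (b : ℝ) * kap b ^ JJ b ≤ 2 ^ b * (1 / 2) ^ (7 + b) := mul_le_mul h2 h1 (pow_nonneg (kap_nonneg hb) _) (by positivity)
    _ = 1 / 128 := by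
        rw [pow_add, mul_comm ((1 / 2 : ℝ) ^ 7), ← mul_assoc, ← mul_pow]
        norm_num

lemma win_le {b : ℕ} (hb : 2 ≤ b) (t : ℕ) : (1 + (b : ℝ) * kap b ^ JJ b) ^ (3 * ww b t) ≤ 2 ^ (4 + b * t) := by
  have e : 3 * ww b t = 48 * (4 + b * t) := by unfold ww; ring
  rw [e, pow_mul]
  have h0 : 0 ≤ 1 + (b : ℝ) * kap b ^ JJ b := by
    have := mul_nonneg (by positivity : (0 : ℝ) ≤ b) (pow_nonneg (kap_nonneg hb) (JJ b))
    linarith
  apply pow_le_pow_left₀ (pow_nonneg h0 _)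
  calc (1 + (b : ℝ) * kap b ^ JJ b) ^ 48 ≤ (1 + 1 / 128) ^ 48 := by
        apply pow_le_pow_left₀ h0
        linarith [b_kap hb]
    _ ≤ 2 := by norm_num

lemma JJ_le (b : ℕ) : JJ b ≤ 2 ^ (3 * b + 6) := by
  unfold JJ
  have h1 : b ≤ 2 ^ b := Nat.lt_two_pow_self.le
  have h2 : 1 ≤ 2 ^ b := Nat.one_le_two_pow
  calc 8 * b ^ 2 * (7 + b) ≤ 8 * (2 ^ b) ^ 2 * (7 * 2 ^ b + 2 ^ b) := by
        apply Nat.mul_le_mul
        · exact Nat.mul_le_mul_left _ (Nat.pow_le_pow_left h1 2)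
        · omega
    _ = 2 ^ (3 * b + 6) := by
        rw [show 3 * b + 6 = b + b + b + 6 by ring, pow_add, pow_add, pow_add]
        ring

lemma condA {b : ℕ} (hb : 2 ≤ b) (t : ℕ) (ht : 1 ≤ t) :
    36 * (((b ^ (2 * t) : ℕ) : ℝ)) ^ 2 * (1 + 2 * (3 * JJ b * (1 + (b : ℝ) * kap b ^ JJ b) ^ (3 * ww b t))) <
      2 ^ (8 * (4 + b * t)) := by
  have h1 := win_le hb t
  obtain ⟨v, hv⟩ : ∃ v, v = 4 + b * t := ⟨_, rfl⟩
  rw [← hv] at h1 ⊢
  have hJ0 : (0 : ℝ) ≤ JJ b := by positivity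
  have hJ : (JJ b : ℝ) ≤ 2 ^ (3 * v) := by
    have e1 : JJ b ≤ 2 ^ (3 * v) := by
      refine (JJ_le b).trans (Nat.pow_le_pow_right (by norm_num) ?_)
      rw [hv]
      nlinarith
    exact_mod_cast e1
  have h2 : (((b ^ (2 * t) : ℕ) : ℝ)) ^ 2 ≤ 2 ^ (4 * v) / 2 ^ 16 := by
    rw [le_div_iff₀ (by positivity)]
    have e2 : (b ^ (2 * t)) ^ 2 * 2 ^ 16 ≤ 2 ^ (4 * v) := by
      calc (b ^ (2 * t)) ^ 2 * 2 ^ 16 = b ^ (4 * t) * 2 ^ 16 := by
            rw [← pow_mul]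
            congr 2
            ring
        _ ≤ (2 ^ b) ^ (4 * t) * 2 ^ 16 := Nat.mul_le_mul_right _ (Nat.pow_le_pow_left Nat.lt_two_pow_self.le _)
        _ = 2 ^ (4 * v) := by
            rw [← pow_mul, ← pow_add, hv]
            congr 1
            ring
    exact_mod_cast e2
  have h3 : 1 + 2 * (3 * (JJ b : ℝ) * (1 + (b : ℝ) * kap b ^ JJ b) ^ (3 * ww b t)) ≤ 7 * (2 ^ (3 * v) * 2 ^ v) := by
    have e3 : (JJ b : ℝ) * (1 + (b : ℝ) * kap b ^ JJ b) ^ (3 * ww b t) ≤ 2 ^ (3 * v) * 2 ^ v := by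
      apply mul_le_mul hJ h1 _ (by positivity)
      apply pow_nonneg
      have := mul_nonneg (by positivity : (0 : ℝ) ≤ b) (pow_nonneg (kap_nonneg hb) (JJ b))
      linarith
    have e4 : (1 : ℝ) ≤ 2 ^ (3 * v) * 2 ^ v := by
      have a1 : (1 : ℝ) ≤ 2 ^ (3 * v) := one_le_pow₀ (by norm_num)
      have a2 : (1 : ℝ) ≤ 2 ^ v := one_le_pow₀ (by norm_num)
      nlinarith
    linarith
  have h4 : (0 : ℝ) < 2 ^ (4 * v) := by positivity
  calc 36 * (((b ^ (2 * t) : ℕ) : ℝ)) ^ 2 * (1 + 2 * (3 * (JJ b : ℝ) * (1 + (b : ℝ) * kap b ^ JJ b) ^ (3 * ww b t))) ≤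
        36 * (2 ^ (4 * v) / 2 ^ 16) * (7 * (2 ^ (3 * v) * 2 ^ v)) := by
          apply mul_le_mul (mul_le_mul_of_nonneg_left h2 (by norm_num)) h3 _ (by positivity)
          have := mul_nonneg (by positivity : (0 : ℝ) ≤ b) (pow_nonneg (kap_nonneg hb) (JJ b))
          have h5 : 0 ≤ (1 + (b : ℝ) * kap b ^ JJ b) ^ (3 * ww b t) := pow_nonneg (by linarith) _
          have h6 := mul_nonneg hJ0 h5
          linarith
    _ = (252 / 65536) * (2 ^ (4 * v) * 2 ^ (4 * v)) := by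
          have e5 : (2 : ℝ) ^ (4 * v) = 2 ^ (3 * v) * 2 ^ v := by rw [← pow_add]; congr 1; ring
          rw [← e5]
          ring
    _ < 1 * (2 ^ (4 * v) * 2 ^ (4 * v)) := by
          apply mul_lt_mul_of_pos_right (by norm_num) (by positivity)
    _ = 2 ^ (8 * v) := by rw [one_mul, ← pow_add]; congr 1; ring

/-- **The discrete bound for squares.** -/
lemma core_sq (b : ℕ) (hb : 2 ≤ b) (t j : ℕ) (ht : 1 ≤ t) (hj1 : b * (ww b t + 1) ≤ 2 ^ j)
    (hj2 : 96 * b ^ 2 * j ≤ 2 ^ j) (hj3 : 1 ≤ j) (γ : ℝ) :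
    ∃ s ∈ zeroOne b, s ^ 2 ≤ b ^ (6 * mm b t j) ∧ nd ((s : ℝ) ^ 2 * γ) ≤ 1 / (b : ℝ) ^ t := by
  have hb2 : (2 : ℝ) ≤ b := by exact_mod_cast hb
  have hb0 : (0 : ℝ) < b := by linarith
  obtain ⟨n, hn⟩ : ∃ n, n = b ^ (2 * t) := ⟨_, rfl⟩
  obtain ⟨v, hv⟩ : ∃ v, v = 4 + b * t := ⟨_, rfl⟩
  obtain ⟨q, hq⟩ : ∃ q, q = 8 * v := ⟨_, rfl⟩
  obtain ⟨w, hw⟩ : ∃ w, w = ww b t := ⟨_, rfl⟩
  obtain ⟨J, hJ⟩ : ∃ J, J = JJ b := ⟨_, rfl⟩
  obtain ⟨r, hr⟩ : ∃ r, r = rr b j := ⟨_, rfl⟩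
  obtain ⟨W, hW⟩ : ∃ W, W = 3 * J * (r + 1) := ⟨_, rfl⟩
  obtain ⟨m, hm⟩ : ∃ m, m = (W + 2) * w := ⟨_, rfl⟩
  obtain ⟨N', hN'⟩ : ∃ N', N' = 6 * b ^ (2 * t + q) := ⟨_, rfl⟩
  obtain ⟨E, hE⟩ : ∃ E, E = b * w + 16 * b ^ 2 * j * (w + 1) := ⟨_, rfl⟩
  obtain ⟨L, hL⟩ : ∃ L, L = 1 + 2 * E + t := ⟨_, rfl⟩
  have hmm : mm b t j = m := by rw [hm, hW, hJ, hr, hw]; rfl
  rw [hmm]
  rw [← hw] at hj1
  have hJ1 : 1 ≤ J := by rw [hJ]; exact JJ_pos hb
  have hn1 : 1 ≤ n := by rw [hn]; exact Nat.one_le_pow _ _ (by omega)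
  have hwv : w = 16 * v := by rw [hw, hv]; rfl
  have htv : t + 4 ≤ v := by
    rw [hv]
    have : t ≤ b * t := Nat.le_mul_of_pos_left _ (by omega)
    omega
  have hNw : 2 * N' ≤ b ^ w := by
    have h16 : 12 ≤ b ^ 4 := by
      calc 12 ≤ 2 ^ 4 := by norm_num
        _ ≤ b ^ 4 := Nat.pow_le_pow_left hb 4
    calc 2 * N' = 12 * b ^ (2 * t + q) := by rw [hN']; ring
      _ ≤ b ^ 4 * b ^ (2 * t + q) := Nat.mul_le_mul_right _ h16
      _ = b ^ (4 + (2 * t + q)) := (pow_add _ _ _).symm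
      _ ≤ b ^ w := Nat.pow_le_pow_right (by omega) (by omega)
  have hN1 : 1 ≤ N' := by
    rw [hN']
    have : 0 < b ^ (2 * t + q) := by positivity
    omega
  have hLr : L ≤ r * w := by
    rw [hL, hE, hr]
    unfold rr
    have hw1 : 1 ≤ w := by omega
    have e1 : 32 * b ^ 2 * j * (w + 1) ≤ 64 * b ^ 2 * j * w := by
      calc 32 * b ^ 2 * j * (w + 1) ≤ 32 * b ^ 2 * j * (2 * w) := Nat.mul_le_mul_left _ (by omega)
        _ = 64 * b ^ 2 * j * w := by ring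
    calc 1 + 2 * (b * w + 16 * b ^ 2 * j * (w + 1)) + t = (1 + t) + 2 * (b * w) + 32 * b ^ 2 * j * (w + 1) := by ring
      _ ≤ 2 * w + 2 * (b * w) + 64 * b ^ 2 * j * w := by omega
      _ = (2 + 2 * b + 64 * b ^ 2 * j) * w := by ring
  have hrm : r * w ≤ m := by
    rw [hm, hW]
    apply Nat.mul_le_mul_right
    have : r + 1 ≤ 3 * J * (r + 1) := Nat.le_mul_of_pos_left _ (by omega)
    omega
  have hwm : 2 * w ≤ m := by
    rw [hm]
    exact Nat.mul_le_mul_right _ (by omega)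
  have hfin : ∀ s : ℕ, s < b ^ (3 * m) → s ^ 2 ≤ b ^ (6 * m) := by
    intro s hs
    calc s ^ 2 ≤ (b ^ (3 * m)) ^ 2 := Nat.pow_le_pow_left hs.le 2
      _ = b ^ (6 * m) := by rw [← pow_mul]; congr 1; ring
  -- the shifted numbers
  obtain ⟨Y, hY⟩ : ∃ Y : Finset ℕ → ℝ, Y = fun A' => ((b ^ m * XA b A' + b ^ (m + q) : ℕ) : ℝ) := ⟨_, rfl⟩
  by_cases hcase : ∃ A ∈ (range m).powerset, ∃ A' ∈ (range q).powerset,
      nd (γ * ((XA b A : ℝ) + Y A') ^ 2) < 1 / (b : ℝ) ^ t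
  · obtain ⟨A, hA, A', hA', hnd⟩ := hcase
    rw [mem_powerset] at hA hA'
    have hval : XA b A + (b ^ m * XA b A' + b ^ (m + q)) =
        XA b (A ∪ ((A'.map (addLeftEmbedding m)) ∪ {m + q})) := by
      unfold XA
      rw [sum_union, sum_union, sum_singleton, sum_map, mul_sum]
      · congr 2
        apply sum_congr rfl
        intro i _
        rw [addLeftEmbedding_apply, pow_add]
      · rw [disjoint_singleton_right, mem_map]
        rintro ⟨i, hi, hi2⟩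
        have := mem_range.mp (hA' hi)
        rw [addLeftEmbedding_apply] at hi2
        omega
      · rw [disjoint_left]
        intro i hi hi2
        have h1 := mem_range.mp (hA hi)
        rw [mem_union, mem_map, mem_singleton] at hi2
        rcases hi2 with ⟨x, _, hx⟩ | h2
        · rw [addLeftEmbedding_apply] at hx
          omega
        · omega
    refine ⟨XA b A + (b ^ m * XA b A' + b ^ (m + q)), ?_, ?_, ?_⟩
    · rw [hval]
      exact ⟨_, ⟨m + q, by simp⟩, rfl⟩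
    · apply hfin
      rw [hval]
      apply Nat.geomSum_lt hb
      intro i hi
      rw [mem_union, mem_union, mem_map, mem_singleton] at hi
      rcases hi with h1 | ⟨x, hx, rfl⟩ | h1
      · have := mem_range.mp (hA h1)
        omega
      · have := mem_range.mp (hA' hx)
        rw [addLeftEmbedding_apply]
        omega
      · omega
    · rw [mul_comm]
      have e1 : ((XA b A + (b ^ m * XA b A' + b ^ (m + q)) : ℕ) : ℝ) =
          (XA b A : ℝ) + Y A' := by rw [hY]; exact Nat.cast_add _ _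
      rw [e1]
      exact hnd.le
  push Not at hcase
  obtain ⟨h, hh1, hh2, hsum⟩ := fourier ((range m).powerset ×ˢ (range q).powerset)
    (fun p => γ * ((XA b p.1 : ℝ) + Y p.2) ^ 2)
    ⟨(∅, ∅), by
      rw [mem_product]
      exact ⟨empty_mem_powerset _, empty_mem_powerset _⟩⟩
    (1 / (b : ℝ) ^ t) (by positivity)
    (fun p hp => hcase p.1 (mem_product.mp hp).1 p.2 (mem_product.mp hp).2)
    n hn1 (by rw [hn]; exact fourier_cond b t hb)
  rw [card_product, sum_product] at hsum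
  have hsum2 : (2 : ℝ) ^ m * 2 ^ q / (6 * n) ≤
      ‖∑ A ∈ (range m).powerset, ∑ k ∈ (range q).powerset,
        e ((h * γ) * ((XA b A : ℝ) + Y k) ^ 2)‖ := by
    refine le_trans (le_of_eq ?_) (hsum.trans (le_of_eq ?_))
    · simp only [card_powerset, card_range]; push_cast; ring
    · congr 1
      apply sum_congr rfl
      intro A _
      apply sum_congr rfl
      intro k _
      congr 1
      ring
  have hcs := cs' b m (range q).powerset (h * γ) Y
  have hn0 : (0 : ℝ) < n := by exact_mod_cast hn1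
  have hsq : (4 : ℝ) ^ m * (4 ^ q / (36 * (n : ℝ) ^ 2)) ≤ 4 ^ m * ∑ k ∈ (range q).powerset,
      ∑ k' ∈ (range q).powerset, Phi b m (2 * (h * γ) * (Y k - Y k')) := by
    refine le_trans ?_ hcs
    calc (4 : ℝ) ^ m * (4 ^ q / (36 * (n : ℝ) ^ 2)) = ((2 : ℝ) ^ m * 2 ^ q / (6 * n)) ^ 2 := by
          rw [div_pow, mul_pow, mul_pow, ← pow_mul, ← pow_mul, mul_comm m 2, mul_comm q 2, pow_mul, pow_mul]
          norm_num
          ring
      _ ≤ _ := pow_le_pow_left₀ (by positivity) hsum2 2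
  have hsq2 := le_of_mul_le_mul_left hsq (by positivity)
  obtain ⟨θ, hθ⟩ : ∃ θ : ℝ, θ = γ * (b : ℝ) ^ m := ⟨_, rfl⟩
  have hinj := Finset.geomSum_injective hb
  have hk : ∀ k ∈ (range q).powerset, ∑ k' ∈ (range q).powerset, Phi b m (2 * (h * γ) * (Y k - Y k')) ≤
      1 + 2 * ∑ x ∈ Icc 1 N', Phi b m (x * θ) := by
    intro k hk
    have h1 := sum_diff (range q).powerset (fun A => XA b A) (fun k _ k' _ hkk => hinj hkk) (2 * h) N' (by omega)
      (fun k hk => by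
        rw [mem_powerset] at hk
        have h2 : XA b k < b ^ q := Nat.geomSum_lt hb (fun i hi => mem_range.mp (hk hi))
        calc 2 * h * XA b k ≤ 2 * (3 * n) * b ^ q := Nat.mul_le_mul (Nat.mul_le_mul_left _ hh2) h2.le
          _ = N' := by rw [hN', hn, pow_add]; ring)
      (Phi b m) (Phi_nonneg b m) (Phi_le_one b m) (Phi_neg b m) θ k hk
    refine le_trans (le_of_eq ?_) h1
    apply sum_congr rfl
    intro k' _
    congr 1
    rw [hY, hθ]
    push_cast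
    ring
  have htot : (4 : ℝ) ^ q / (36 * (n : ℝ) ^ 2) ≤ 2 ^ q * (1 + 2 * ∑ x ∈ Icc 1 N', Phi b m (x * θ)) := by
    refine hsq2.trans ((sum_le_sum hk).trans (le_of_eq ?_))
    rw [sum_const, card_powerset, card_range, nsmul_eq_mul]
    push_cast
    rfl
  rcases dich b w r J N' hb hJ1 hN1 hNw θ with hd | ⟨Q, hQ1, hQ2, u, hu, hQ3⟩
  · exfalso
    rw [← hW, ← hm] at hd
    have hA := condA hb t ht
    rw [← hJ, ← hw, ← hn, ← hv, ← hq] at hA
    have h4 : (4 : ℝ) ^ q = 2 ^ q * 2 ^ q := by rw [← mul_pow]; norm_num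
    rw [div_le_iff₀ (by positivity), h4] at htot
    have h2q : (0 : ℝ) < 2 ^ q := by positivity
    have h5 : (2 : ℝ) ^ q ≤ (1 + 2 * ∑ x ∈ Icc 1 N', Phi b m (x * θ)) * (36 * (n : ℝ) ^ 2) := by
      apply le_of_mul_le_mul_left _ h2q
      linarith
    have h6 : (1 + 2 * ∑ x ∈ Icc 1 N', Phi b m (x * θ)) * (36 * (n : ℝ) ^ 2) ≤
        (1 + 2 * (3 * J * (1 + b * kap b ^ J) ^ (3 * w))) * (36 * (n : ℝ) ^ 2) := by
      apply mul_le_mul_of_nonneg_right _ (by positivity)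
      linarith
    linarith
  · have hQw : Q ≤ b ^ w := by omega
    obtain ⟨s', hs', hdvd, hs'lt⟩ := exists_multiple_log b Q w j hb hQ1 hQw hj1 hj2 hj3
    rw [← hE] at hs'lt
    have hz : (Q : ℝ) * θ * b ^ (u * w) = Q * γ * b ^ (m + u * w) := by
      rw [hθ, pow_add]
      ring
    rw [hz] at hQ3
    have hQ4 : nd (Q * γ * b ^ (m + u * w)) ≤ 1 / (2 * (b : ℝ) ^ L) := by
      refine hQ3.trans ?_
      apply one_div_le_one_div_of_le (by positivity)
      apply mul_le_mul_of_nonneg_left _ (by norm_num)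
      exact pow_le_pow_right₀ (by linarith) hLr
    obtain ⟨s, hs, hslt, hsnd⟩ := last_two b hb γ Q (m + u * w) L E s' hQ1 hs' hdvd hs'lt hQ4
    refine ⟨s, hs, ?_, ?_⟩
    · apply hfin
      refine hslt.trans_le (Nat.pow_le_pow_right (by omega) ?_)
      have e1 : u * w ≤ m := by
        rw [hm]
        exact Nat.mul_le_mul_right _ (by omega)
      omega
    · refine hsnd.trans ?_
      rw [hL, pow_add (b : ℝ) (1 + 2 * E) t]
      have h1 : (0 : ℝ) < (b : ℝ) ^ (1 + 2 * E) := by positivity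
      have h2 : (0 : ℝ) < (b : ℝ) ^ t := by positivity
      rw [div_le_div_iff₀ (by positivity) h2]
      nlinarith [mul_pos h1 h2]

end Pool.Agent.H56.HS
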