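import Pool.Agent.H56.HS.Weyl

/-!
# All powers: the discrete bound
-/

set_option autoImplicit false

namespace Pool.Agent.H56.HS

open Finset Pool.Agent.W10.HS

/-- constants; the degree is `k + 2` -/
def C1 (k : ℕ) : ℕ := 2 * 2 ^ (k + 1) + 2
def C2 (k : ℕ) : ℕ := C1 k * (k + 1) + 3
def PJ (b k : ℕ) : ℕ := 8 * b ^ 2 * (b + 3 + C2 k)
def V0 (b k : ℕ) : ℕ := (k + 1) + 6 * PJ b k + (k + 2).factorial + 4
def vv (b k t : ℕ) : ℕ := V0 b k + b * t
def pw (b k t : ℕ) : ℕ := C2 k * vv b k t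
def pr (b k j : ℕ) : ℕ := 2 + (k + 2) * b + 32 * (k + 2) * b ^ 2 * j
def pm (b k t j : ℕ) : ℕ := (3 * PJ b k * (pr b k j + 1) + 2) * pw b k t

lemma PJ_pos {b : ℕ} (hb : 2 ≤ b) (k : ℕ) : 1 ≤ PJ b k := by
  unfold PJ
  exact Nat.one_le_iff_ne_zero.2 (by positivity)

lemma C2_ge (k : ℕ) : 3 ≤ C2 k := by unfold C2; omega

lemma exp_half_le : Real.exp (1 / 2) ≤ 2 := by
  have h1 : Real.exp (1 / 2) ^ 2 = Real.exp 1 := by
    rw [← Real.exp_nat_mul]
    norm_num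
  have h2 := Real.exp_one_lt_d9
  have h3 := Real.exp_pos (1 / 2)
  nlinarith

lemma pwin_le {b : ℕ} (hb : 2 ≤ b) (k t : ℕ) :
    (1 + (b : ℝ) * kap b ^ PJ b k) ^ (3 * pw b k t) ≤ 2 ^ vv b k t := by
  have hC : (0 : ℝ) < C2 k := by
    have := C2_ge k
    exact_mod_cast (by omega : 0 < C2 k)
  have hx0 : 0 ≤ (b : ℝ) * kap b ^ PJ b k := mul_nonneg (by positivity) (pow_nonneg (kap_nonneg hb) _)
  have hx : (b : ℝ) * kap b ^ PJ b k ≤ 1 / (6 * C2 k) := by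
    have h1 : kap b ^ PJ b k ≤ (1 / 2) ^ (b + 3 + C2 k) := kap_pow hb _
    have h2 : 6 * C2 k * b ≤ 2 ^ (b + 3 + C2 k) := by
      calc 6 * C2 k * b ≤ 8 * 2 ^ C2 k * 2 ^ b :=
            Nat.mul_le_mul (Nat.mul_le_mul (by norm_num) Nat.lt_two_pow_self.le) Nat.lt_two_pow_self.le
        _ = 2 ^ (b + 3 + C2 k) := by rw [pow_add, pow_add]; ring
    have h2' : (6 : ℝ) * C2 k * b ≤ 2 ^ (b + 3 + C2 k) := by exact_mod_cast h2
    rw [le_div_iff₀ (by positivity)]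
    calc (b : ℝ) * kap b ^ PJ b k * (6 * C2 k) ≤ b * (1 / 2) ^ (b + 3 + C2 k) * (6 * C2 k) := by
          apply mul_le_mul_of_nonneg_right _ (by positivity)
          exact mul_le_mul_of_nonneg_left h1 (by positivity)
      _ = (6 * C2 k * b) * (1 / 2) ^ (b + 3 + C2 k) := by ring
      _ ≤ 2 ^ (b + 3 + C2 k) * (1 / 2) ^ (b + 3 + C2 k) := mul_le_mul_of_nonneg_right h2' (by positivity)
      _ = 1 := by rw [← mul_pow]; norm_num
  have e : 3 * pw b k t = (3 * C2 k) * vv b k t := by unfold pw; ring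
  rw [e, pow_mul]
  apply pow_le_pow_left₀ (by positivity)
  calc (1 + (b : ℝ) * kap b ^ PJ b k) ^ (3 * C2 k) ≤ Real.exp ((b : ℝ) * kap b ^ PJ b k) ^ (3 * C2 k) := by
        apply pow_le_pow_left₀ (by positivity)
        rw [add_comm]
        exact Real.add_one_le_exp _
    _ = Real.exp ((3 * C2 k : ℕ) * ((b : ℝ) * kap b ^ PJ b k)) := by rw [← Real.exp_nat_mul]
    _ ≤ Real.exp (1 / 2) := by
        apply Real.exp_le_exp.2
        push_cast
        rw [le_div_iff₀ (by positivity)] at hx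
        linarith
    _ ≤ 2 := exp_half_le

lemma pcond {b : ℕ} (hb : 2 ≤ b) (k t : ℕ) :
    (6 * ((b ^ (2 * t) : ℕ) : ℝ)) ^ (2 ^ (k + 1)) *
      ((k + 1 : ℕ) + 2 * (3 * PJ b k * (1 + (b : ℝ) * kap b ^ PJ b k) ^ (3 * pw b k t))) <
      2 ^ (C1 k * vv b k t) := by
  have h1 := pwin_le hb k t
  obtain ⟨v, hv⟩ : ∃ v, v = vv b k t := ⟨_, rfl⟩
  rw [← hv] at h1 ⊢
  have hx0 : 0 ≤ (b : ℝ) * kap b ^ PJ b k := mul_nonneg (by positivity) (pow_nonneg (kap_nonneg hb) _)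
  have hA : 6 * ((b ^ (2 * t) : ℕ) : ℝ) ≤ 2 ^ (2 * v) := by
    have e1 : 6 * b ^ (2 * t) ≤ 2 ^ (2 * v) := by
      calc 6 * b ^ (2 * t) ≤ 2 ^ 3 * (2 ^ b) ^ (2 * t) :=
            Nat.mul_le_mul (by norm_num) (Nat.pow_le_pow_left Nat.lt_two_pow_self.le _)
        _ = 2 ^ (3 + b * (2 * t)) := by rw [← pow_mul, ← pow_add]
        _ ≤ 2 ^ (2 * v) := by
            apply Nat.pow_le_pow_right (by norm_num)
            rw [hv]
            unfold vv V0
            have : b * (2 * t) = 2 * (b * t) := by ring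
            omega
    exact_mod_cast e1
  have hA' : (6 * ((b ^ (2 * t) : ℕ) : ℝ)) ^ (2 ^ (k + 1)) ≤ 2 ^ (2 * v * 2 ^ (k + 1)) := by
    rw [pow_mul (2 : ℝ) (2 * v) (2 ^ (k + 1))]
    exact pow_le_pow_left₀ (by positivity) hA _
  have hB : ((k + 1 : ℕ) : ℝ) + 2 * (3 * PJ b k * (1 + (b : ℝ) * kap b ^ PJ b k) ^ (3 * pw b k t)) <
      2 ^ v * 2 ^ v := by
    have e2 : (((k + 1) + 6 * PJ b k : ℕ) : ℝ) < 2 ^ v := by
      have : (k + 1) + 6 * PJ b k < 2 ^ v := by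
        have h2 : (k + 1) + 6 * PJ b k ≤ v := by
          rw [hv]
          unfold vv V0
          omega
        exact h2.trans_lt Nat.lt_two_pow_self
      exact_mod_cast this
    have e3 : (1 : ℝ) ≤ 2 ^ v := one_le_pow₀ (by norm_num)
    have hPJ : (0 : ℝ) ≤ PJ b k := by positivity
    calc ((k + 1 : ℕ) : ℝ) + 2 * (3 * PJ b k * (1 + (b : ℝ) * kap b ^ PJ b k) ^ (3 * pw b k t)) ≤
          ((k + 1 : ℕ) : ℝ) * 2 ^ v + 2 * (3 * PJ b k * 2 ^ v) := by
          apply add_le_add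
          · exact le_mul_of_one_le_right (by positivity) e3
          · apply mul_le_mul_of_nonneg_left _ (by norm_num)
            exact mul_le_mul_of_nonneg_left h1 (by positivity)
      _ = (((k + 1) + 6 * PJ b k : ℕ) : ℝ) * 2 ^ v := by push_cast; ring
      _ < 2 ^ v * 2 ^ v := mul_lt_mul_of_pos_right e2 (by positivity)
  have hB0 : 0 ≤ ((k + 1 : ℕ) : ℝ) + 2 * (3 * PJ b k * (1 + (b : ℝ) * kap b ^ PJ b k) ^ (3 * pw b k t)) := by
    positivity
  calc _ ≤ (2 : ℝ) ^ (2 * v * 2 ^ (k + 1)) *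
        (((k + 1 : ℕ) : ℝ) + 2 * (3 * PJ b k * (1 + (b : ℝ) * kap b ^ PJ b k) ^ (3 * pw b k t))) :=
        mul_le_mul_of_nonneg_right hA' hB0
    _ < 2 ^ (2 * v * 2 ^ (k + 1)) * (2 ^ v * 2 ^ v) := mul_lt_mul_of_pos_left hB (by positivity)
    _ = 2 ^ (C1 k * v) := by
        rw [← pow_add, ← pow_add]
        congr 1
        unfold C1
        ring

/-- the last step -/
lemma last_pow (b d : ℕ) (hb : 2 ≤ b) (hd : 1 ≤ d) (γ : ℝ) (Q n0 L E s' : ℕ) (hQ : 1 ≤ Q)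
    (hs' : s' ∈ zeroOne b) (hdvd : Q ∣ s') (hlt : s' < b ^ E)
    (hnd : nd (Q * γ * b ^ n0) ≤ 1 / (2 * (b : ℝ) ^ L)) :
    ∃ s ∈ zeroOne b, s < b ^ ((n0 + d - 1) / d + E) ∧
      nd ((s : ℝ) ^ d * γ) ≤ (b : ℝ) ^ (d - 1 + d * E) / (2 * (b : ℝ) ^ L) := by
  have hb0 : (0 : ℝ) < b := by positivity
  obtain ⟨V, rfl⟩ := hdvd
  obtain ⟨e, he⟩ : ∃ e, e = (n0 + d - 1) / d := ⟨_, rfl⟩
  rw [← he]
  have h1 : n0 ≤ d * e := by
    rw [he]
    have h2 := Nat.div_add_mod (n0 + d - 1) d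
    have h3 := Nat.mod_lt (n0 + d - 1) (by omega : d > 0)
    omega
  have h2 : d * e ≤ n0 + d - 1 := by
    rw [he]
    exact Nat.mul_div_le _ _
  obtain ⟨q, hq⟩ : ∃ q, d * e = n0 + q := ⟨d * e - n0, by omega⟩
  have hq1 : q ≤ d - 1 := by omega
  have hV : V ≤ Q * V := Nat.le_mul_of_pos_left _ hQ
  refine ⟨b ^ e * (Q * V), zeroOne_shift b e _ hs', ?_, ?_⟩
  · rw [pow_add]
    exact Nat.mul_lt_mul_of_pos_left hlt (by positivity)
  · obtain ⟨d', rfl⟩ : ∃ d', d = d' + 1 := ⟨d - 1, by omega⟩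
    have hM : b ^ q * (Q * V) ^ d' * V ≤ b ^ (d' + 1 - 1 + (d' + 1) * E) := by
      calc b ^ q * (Q * V) ^ d' * V ≤ b ^ d' * (b ^ E) ^ d' * b ^ E :=
            Nat.mul_le_mul (Nat.mul_le_mul (Nat.pow_le_pow_right (by omega) (by omega))
              (Nat.pow_le_pow_left hlt.le _)) (hV.trans hlt.le)
        _ = b ^ (d' + 1 - 1 + (d' + 1) * E) := by
            rw [← pow_mul, ← pow_add, ← pow_add]
            congr 1
            rw [Nat.add_sub_cancel]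
            ring
    have hsq : ((b ^ e * (Q * V) : ℕ) : ℝ) ^ (d' + 1) * γ =
        ((b ^ q * (Q * V) ^ d' * V : ℕ) : ℝ) * (Q * γ * b ^ n0) := by
      have e1 : ((b : ℝ) ^ e) ^ (d' + 1) = (b : ℝ) ^ n0 * (b : ℝ) ^ q := by
        rw [← pow_mul, ← pow_add, mul_comm e, hq]
      push_cast
      rw [mul_pow, e1]
      ring
    rw [hsq]
    refine (nd_nat_mul _ _).trans ?_
    rw [div_eq_mul_one_div]
    apply mul_le_mul _ hnd (nd_nonneg _) (by positivity)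
    exact_mod_cast hM

/-- the integers `zz` have digits `0` and `1` only -/
lemma zz_eq (b m q : ℕ) : ∀ (k : ℕ), ∀ i ∈ II m q k, ∃ S ⊆ range (m + k * q),
    zz b (fun i => m + i * q) k i = XA b S := by
  intro k
  induction k with
  | zero =>
    intro (A : Finset ℕ) hA
    refine ⟨A, ?_, rfl⟩
    rw [zero_mul, add_zero]
    exact mem_powerset.1 hA
  | succ k ih =>
    intro (i : Idx k × Finset ℕ) hi
    have hi0 := mem_product.1 hi
    have hi' : i.1 ∈ II m q k ∧ i.2 ⊆ range q := ⟨hi0.1, mem_powerset.1 hi0.2⟩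
    obtain ⟨S, hS, hSe⟩ := ih i.1 hi'.1
    refine ⟨S ∪ i.2.map (addLeftEmbedding (m + k * q)), ?_, ?_⟩
    · intro x hx
      rw [mem_union, mem_map] at hx
      rw [mem_range]
      rcases hx with h | ⟨y, hy, rfl⟩
      · have := mem_range.1 (hS h)
        rw [Nat.succ_mul]
        omega
      · have := mem_range.1 (hi'.2 hy)
        rw [addLeftEmbedding_apply, Nat.succ_mul]
        omega
    · show zz b (fun i => m + i * q) k i.1 + b ^ (m + k * q) * XA b i.2 = _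
      rw [hSe]
      unfold XA
      rw [sum_union, sum_map, mul_sum]
      · congr 1
        apply sum_congr rfl
        intro y _
        rw [addLeftEmbedding_apply, pow_add b (m + k * q) y]
      · rw [disjoint_left]
        intro x hx hx2
        have h1 := mem_range.1 (hS hx)
        rw [mem_map] at hx2
        obtain ⟨y, _, rfl⟩ := hx2
        rw [addLeftEmbedding_apply] at h1
        omega

/-- **The discrete bound for the powers with exponent `k + 2`.** -/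
lemma core_pow (b : ℕ) (hb : 2 ≤ b) (k t j : ℕ) (hj1 : b * (pw b k t + 1) ≤ 2 ^ j)
    (hj2 : 96 * b ^ 2 * j ≤ 2 ^ j) (hj3 : 1 ≤ j) (γ : ℝ) :
    ∃ s ∈ zeroOne b, s ^ (k + 2) ≤ b ^ ((k + 2) * (2 * k + 5) * pm b k t j) ∧
      nd ((s : ℝ) ^ (k + 2) * γ) ≤ 1 / (b : ℝ) ^ t := by
  have hb2 : (2 : ℝ) ≤ b := by exact_mod_cast hb
  have hb0 : (0 : ℝ) < b := by linarith
  obtain ⟨n, hn⟩ : ∃ n, n = b ^ (2 * t) := ⟨_, rfl⟩
  obtain ⟨v, hv⟩ : ∃ v, v = vv b k t := ⟨_, rfl⟩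
  obtain ⟨q, hq⟩ : ∃ q, q = C1 k * v := ⟨_, rfl⟩
  obtain ⟨w, hw⟩ : ∃ w, w = pw b k t := ⟨_, rfl⟩
  obtain ⟨J, hJ⟩ : ∃ J, J = PJ b k := ⟨_, rfl⟩
  obtain ⟨r, hr⟩ : ∃ r, r = pr b k j := ⟨_, rfl⟩
  obtain ⟨W, hW⟩ : ∃ W, W = 3 * J * (r + 1) := ⟨_, rfl⟩
  obtain ⟨m, hm⟩ : ∃ m, m = (W + 2) * w := ⟨_, rfl⟩
  obtain ⟨F, hF⟩ : ∃ F, F = (k + 2).factorial := ⟨_, rfl⟩
  obtain ⟨N', hN'⟩ : ∃ N', N' = F * (3 * n) * b ^ (q * (k + 1)) := ⟨_, rfl⟩
  obtain ⟨E, hE⟩ : ∃ E, E = b * w + 16 * b ^ 2 * j * (w + 1) := ⟨_, rfl⟩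
  obtain ⟨L, hL⟩ : ∃ L, L = k + 1 + (k + 2) * E + t := ⟨_, rfl⟩
  have hmm : pm b k t j = m := by rw [hm, hW, hJ, hr, hw]; rfl
  rw [hmm]
  rw [← hw] at hj1
  have hF1 : k + 2 ≤ F := by rw [hF]; exact Nat.self_le_factorial _
  have hJ1 : 1 ≤ J := by rw [hJ]; exact PJ_pos hb k
  have hn1 : 1 ≤ n := by rw [hn]; exact Nat.one_le_pow _ _ (by omega)
  have hwq : w = q * (k + 1) + 3 * v := by
    rw [hw, hq, hv]
    unfold pw C2
    ring
  have hvF : F + 4 + 2 * t ≤ v := by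
    rw [hv, hF]
    unfold vv V0
    have : 2 * t ≤ b * t := Nat.mul_le_mul_right _ hb
    omega
  have hvw : 3 * v ≤ w := by omega
  have hNw : 2 * N' ≤ b ^ w := by
    have h8 : 6 * F ≤ b ^ (3 + F) := by
      calc 6 * F ≤ 2 ^ 3 * 2 ^ F := Nat.mul_le_mul (by norm_num) Nat.lt_two_pow_self.le
        _ = 2 ^ (3 + F) := (pow_add _ _ _).symm
        _ ≤ b ^ (3 + F) := Nat.pow_le_pow_left hb _
    calc 2 * N' = 6 * F * b ^ (2 * t) * b ^ (q * (k + 1)) := by rw [hN', hn]; ring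
      _ ≤ b ^ (3 + F) * b ^ (2 * t) * b ^ (q * (k + 1)) := Nat.mul_le_mul_right _ (Nat.mul_le_mul_right _ h8)
      _ = b ^ (3 + F + 2 * t + q * (k + 1)) := by rw [← pow_add, ← pow_add]
      _ ≤ b ^ w := Nat.pow_le_pow_right (by omega) (by omega)
  have hN1 : 1 ≤ N' := by
    rw [hN']
    have : 0 < b ^ (q * (k + 1)) := by positivity
    exact Nat.mul_pos (Nat.mul_pos (by omega) (by omega)) this
  have hLr : L ≤ r * w := by
    rw [hL, hE, hr]
    unfold pr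
    have hw1 : 1 ≤ w := by omega
    have e1 : 16 * (k + 2) * b ^ 2 * j * (w + 1) ≤ 32 * (k + 2) * b ^ 2 * j * w := by
      calc 16 * (k + 2) * b ^ 2 * j * (w + 1) ≤ 16 * (k + 2) * b ^ 2 * j * (2 * w) :=
            Nat.mul_le_mul_left _ (by omega)
        _ = 32 * (k + 2) * b ^ 2 * j * w := by ring
    calc k + 1 + (k + 2) * (b * w + 16 * b ^ 2 * j * (w + 1)) + t =
          (k + 1 + t) + (k + 2) * b * w + 16 * (k + 2) * b ^ 2 * j * (w + 1) := by ring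
      _ ≤ 2 * w + (k + 2) * b * w + 32 * (k + 2) * b ^ 2 * j * w := by omega
      _ = (2 + (k + 2) * b + 32 * (k + 2) * b ^ 2 * j) * w := by ring
  have hrm : r * w ≤ m := by
    rw [hm, hW]
    apply Nat.mul_le_mul_right
    have : r + 1 ≤ 3 * J * (r + 1) := Nat.le_mul_of_pos_left _ (by omega)
    omega
  have hwm : 2 * w ≤ m := by
    rw [hm]
    exact Nat.mul_le_mul_right _ (by omega)
  have hfin : ∀ s : ℕ, s < b ^ ((2 * k + 5) * m) → s ^ (k + 2) ≤ b ^ ((k + 2) * (2 * k + 5) * m) := by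
    intro s hs
    calc s ^ (k + 2) ≤ (b ^ ((2 * k + 5) * m)) ^ (k + 2) := Nat.pow_le_pow_left hs.le _
      _ = b ^ ((k + 2) * (2 * k + 5) * m) := by rw [← pow_mul]; congr 1; ring
  obtain ⟨P, hP⟩ : ∃ P, P = m + (k + 1) * q := ⟨_, rfl⟩
  have hqw : (k + 1) * q ≤ w := by
    rw [hwq, mul_comm]
    omega
  obtain ⟨p, hp⟩ : ∃ p : ℕ → ℕ, p = fun i => m + i * q := ⟨_, rfl⟩
  by_cases hcase : ∃ i ∈ II m q (k + 1),
      nd (γ * ((zz b p (k + 1) i : ℝ) + (b : ℝ) ^ P) ^ (k + 2)) < 1 / (b : ℝ) ^ t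
  · obtain ⟨i, hi, hnd⟩ := hcase
    rw [hp] at hnd
    obtain ⟨S, hS, hSe⟩ := zz_eq b m q (k + 1) i hi
    rw [← hP] at hS
    have hPS : P ∉ S := fun h => by
      have := mem_range.1 (hS h)
      omega
    have hval : zz b (fun i => m + i * q) (k + 1) i + b ^ P = XA b (insert P S) := by
      rw [hSe]
      unfold XA
      rw [sum_insert hPS, add_comm]
    refine ⟨zz b (fun i => m + i * q) (k + 1) i + b ^ P, ?_, ?_, ?_⟩
    · rw [hval]
      exact ⟨_, ⟨P, by simp⟩, rfl⟩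
    · apply hfin
      rw [hval]
      apply Nat.geomSum_lt hb
      intro x hx
      rw [mem_insert] at hx
      have hbig : 2 * m ≤ (2 * k + 5) * m := Nat.mul_le_mul_right _ (by omega)
      rcases hx with h1 | h1
      · omega
      · have := mem_range.1 (hS h1)
        omega
    · rw [mul_comm]
      push_cast
      exact hnd.le
  push Not at hcase
  have hne : (II m q (k + 1)).Nonempty := by
    rw [← card_pos, card_II]
    positivity
  obtain ⟨h, hh1, hh2, hsum⟩ := fourier (II m q (k + 1))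
    (fun i => γ * ((zz b p (k + 1) i : ℝ) + (b : ℝ) ^ P) ^ (k + 2)) hne
    (1 / (b : ℝ) ^ t) (by positivity) hcase n hn1 (by rw [hn]; exact fourier_cond b t hb)
  have hn0 : (0 : ℝ) < n := by exact_mod_cast hn1
  obtain ⟨f, hf⟩ : ∃ f : ℝ → ℝ, f = fun y => (h : ℝ) * (γ * (y + (b : ℝ) ^ P) ^ (k + 2)) := ⟨_, rfl⟩
  have hav : 1 / (6 * (n : ℝ)) ≤ av b m q p (k + 1) f := by
    unfold av
    rw [le_div_iff₀ (by positivity)]
    rw [card_II] at hsum
    push_cast at hsum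
    have e1 : ∑ i ∈ II m q (k + 1), e (f (zz b p (k + 1) i)) = ∑ i ∈ II m q (k + 1),
        e (h * (γ * ((zz b p (k + 1) i : ℝ) + (b : ℝ) ^ P) ^ (k + 2))) := by
      rw [hf]
    rw [e1]
    refine le_trans (le_of_eq ?_) hsum
    ring
  have hpol : IsPol (k + 2) (h * γ) f := by
    have h1 := isPol_poly (k + 2) (Polynomial.C (h * γ) * (Polynomial.X + Polynomial.C ((b : ℝ) ^ P)) ^ (k + 2)) (by
      refine Polynomial.natDegree_C_mul_le _ _ |>.trans ?_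
      refine Polynomial.natDegree_pow_le.trans ?_
      rw [Polynomial.natDegree_X_add_C, mul_one])
    rw [Polynomial.coeff_C_mul, Polynomial.coeff_X_add_C_pow, Nat.sub_self, pow_zero, Nat.choose_self,
      Nat.cast_one, mul_one, mul_one] at h1
    refine (congrArg (IsPol (k + 2) (h * γ)) ?_).mp h1
    funext y
    rw [hf]
    simp only [Polynomial.eval_mul, Polynomial.eval_C, Polynomial.eval_pow, Polynomial.eval_add, Polynomial.eval_X]
    ring
  have hW1 := weyl b m q hb p k f (h * γ) γ (F * h) N' (Nat.mul_pos (by omega) hh1)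
    (by
      rw [hN']
      exact Nat.mul_le_mul_right _ (Nat.mul_le_mul_left _ hh2))
    hpol (by
      left
      rw [hF]
      push_cast
      ring)
  obtain ⟨σ, hσ⟩ : ∃ σ, σ = ∑ i ∈ range (k + 1), p i := ⟨_, rfl⟩
  rw [← hσ] at hW1
  have hσm : σ ≤ (2 * k + 2) * m := by
    have h1 : ∀ i ∈ range (k + 1), p i ≤ 2 * m := by
      intro i hi
      rw [mem_range] at hi
      rw [hp]
      simp only
      have h2 : i * q ≤ (k + 1) * q := Nat.mul_le_mul_right _ hi.le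
      omega
    rw [hσ]
    refine (sum_le_sum h1).trans (le_of_eq ?_)
    rw [sum_const, card_range, smul_eq_mul]
    ring
  obtain ⟨θ, hθ⟩ : ∃ θ : ℝ, θ = γ * (b : ℝ) ^ σ := ⟨_, rfl⟩
  rw [← hθ] at hW1
  rcases dich b w r J N' hb hJ1 hN1 hNw θ with hd | ⟨Q, hQ1, hQ2, u, hu, hQ3⟩
  · exfalso
    rw [← hW, ← hm] at hd
    have hA := pcond hb k t
    rw [← hJ, ← hw, ← hn, ← hv, ← hq] at hA
    have h2q : (0 : ℝ) < 2 ^ q := by positivity
    have h6n : (0 : ℝ) < (6 * (n : ℝ)) ^ (2 ^ (k + 1)) := by positivity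
    have h4 : (1 / (6 * (n : ℝ))) ^ (2 ^ (k + 1)) ≤ ((k + 1 : ℕ) + 2 * ∑ x ∈ Icc 1 N', Phi b m (x * θ)) / 2 ^ q := by
      refine (pow_le_pow_left₀ (by positivity) hav _).trans (hW1.trans (le_of_eq ?_))
      ring
    rw [one_div, inv_pow, le_div_iff₀ h2q, inv_mul_le_iff₀ h6n] at h4
    have h6 : (6 * (n : ℝ)) ^ (2 ^ (k + 1)) * ((k + 1 : ℕ) + 2 * ∑ x ∈ Icc 1 N', Phi b m (x * θ)) ≤
        (6 * (n : ℝ)) ^ (2 ^ (k + 1)) * ((k + 1 : ℕ) + 2 * (3 * J * (1 + b * kap b ^ J) ^ (3 * w))) := by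
      apply mul_le_mul_of_nonneg_left _ h6n.le
      linarith
    linarith
  · have hQw : Q ≤ b ^ w := by omega
    obtain ⟨s', hs', hdvd, hs'lt⟩ := exists_multiple_log b Q w j hb hQ1 hQw hj1 hj2 hj3
    rw [← hE] at hs'lt
    have hz : (Q : ℝ) * θ * b ^ (u * w) = Q * γ * b ^ (σ + u * w) := by
      rw [hθ, pow_add]
      ring
    rw [hz] at hQ3
    have hQ4 : nd (Q * γ * b ^ (σ + u * w)) ≤ 1 / (2 * (b : ℝ) ^ L) := by
      refine hQ3.trans ?_
      apply one_div_le_one_div_of_le (by positivity)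
      apply mul_le_mul_of_nonneg_left _ (by norm_num)
      exact pow_le_pow_right₀ (by linarith) hLr
    obtain ⟨s, hs, hslt, hsnd⟩ := last_pow b (k + 2) hb (by omega) γ Q (σ + u * w) L E s' hQ1 hs' hdvd hs'lt hQ4
    refine ⟨s, hs, ?_, ?_⟩
    · apply hfin
      refine hslt.trans_le (Nat.pow_le_pow_right (by omega) ?_)
      have e1 : u * w ≤ m := by
        rw [hm]
        exact Nat.mul_le_mul_right _ (by omega)
      have e2 : (σ + u * w + (k + 2) - 1) / (k + 2) ≤ σ + u * w + (k + 2) - 1 := Nat.div_le_self _ _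
      have e3 : (k + 2) * E = E + (k + 1) * E := by ring
      have e4 : E ≤ m := by omega
      have e5 : (2 * k + 5) * m = (2 * k + 2) * m + 3 * m := by ring
      omega
    · refine hsnd.trans ?_
      rw [hL, show k + 2 - 1 = k + 1 by omega, pow_add (b : ℝ) (k + 1 + (k + 2) * E) t]
      have h1 : (0 : ℝ) < (b : ℝ) ^ (k + 1 + (k + 2) * E) := by positivity
      have h2 : (0 : ℝ) < (b : ℝ) ^ t := by positivity
      rw [div_le_div_iff₀ (by positivity) h2]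
      nlinarith [mul_pos h1 h2]

end Pool.Agent.H56.HS
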