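import Pool.Graph.R_seed8.W10.HS.F

/-!
# The products `∏ |cos (π x b ^ i)|`, summed over points which are distinguished by their first `w` digits
-/

set_option autoImplicit false

namespace Pool.Agent.H56.HS

open Finset Pool.Agent.W10.HS

/-- `c` is near a multiple of `b ^ (i + 1)` -/
def near (b i : ℕ) (c : ℤ) : Prop := ∃ m : ℤ, 4 * |c - m * (b : ℤ) ^ (i + 1)| < (b : ℤ) ^ i + 2

open Classical in
/-- the factor `η` for every place where `c` is not near a multiple -/
noncomputable def gg (η : ℝ) (b w : ℕ) (c : ℤ) : ℝ := ∏ i ∈ range w, if near b i c then 1 else η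

lemma near_unique {b : ℕ} (hb : 2 ≤ b) {i : ℕ} {c c' : ℤ} (h : near b i c) (h' : near b i c')
    (hc : (b : ℤ) ^ i ∣ c - c') : (b : ℤ) ^ (i + 1) ∣ c - c' := by
  obtain ⟨m, hm⟩ := h
  obtain ⟨m', hm'⟩ := h'
  obtain ⟨B, hB⟩ : ∃ B : ℤ, B = (b : ℤ) ^ i := ⟨_, rfl⟩
  have hB1 : 1 ≤ B := by
    rw [hB]
    exact_mod_cast Nat.one_le_pow i b (by omega)
  have hBs : (b : ℤ) ^ (i + 1) = b * B := by rw [hB, pow_succ']
  rw [hBs] at hm hm' ⊢
  rw [← hB] at hm hm' hc
  obtain ⟨x, hx⟩ : ∃ x : ℤ, x = c - m * (b * B) := ⟨_, rfl⟩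
  obtain ⟨y, hy⟩ : ∃ y : ℤ, y = c' - m' * (b * B) := ⟨_, rfl⟩
  rw [← hx] at hm
  rw [← hy] at hm'
  have h1 : B ∣ x - y := by
    have e : x - y = (c - c') - B * ((m - m') * b) := by rw [hx, hy]; ring
    rw [e]
    exact dvd_sub hc (dvd_mul_right _ _)
  have h2 : x = y := by
    by_contra hne
    have hxy : x - y ≠ 0 := sub_ne_zero.2 hne
    have h3 : B ≤ |x - y| := by
      have := Int.le_of_dvd (abs_pos.2 hxy) ((dvd_abs _ _).2 h1)
      exact this
    have h4 : |x - y| ≤ |x| + |y| := abs_sub x y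
    have hB2 : B = 1 := by omega
    rw [hB2] at hm hm'
    have h5 : |x| = 0 := by
      have := abs_nonneg x
      omega
    have h6 : |y| = 0 := by
      have := abs_nonneg y
      omega
    rw [abs_eq_zero] at h5 h6
    exact hne (by rw [h5, h6])
  have e : c - c' = (b * B) * (m - m') := by
    have : c - m * (b * B) = c' - m' * (b * B) := by rw [← hx, ← hy, h2]
    linear_combination this
  rw [e]
  exact dvd_mul_right _ _

lemma gg_nonneg {η : ℝ} (hη : 0 ≤ η) (b w : ℕ) (c : ℤ) : 0 ≤ gg η b w c := by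
  unfold gg
  apply prod_nonneg
  intro i _
  split_ifs
  · exact zero_le_one
  · exact hη

/-- **The count.** -/
lemma sum_gg {b : ℕ} (hb : 2 ≤ b) {η : ℝ} (hη : 0 ≤ η) : ∀ (w : ℕ) (C : Finset ℤ),
    (∀ c ∈ C, ∀ c' ∈ C, (b : ℤ) ^ w ∣ c - c' → c = c') → ∑ c ∈ C, gg η b w c ≤ (1 + b * η) ^ w := by
  classical
  intro w
  induction w with
  | zero =>
    intro C hC
    have h1 : C.card ≤ 1 := by
      rw [card_le_one]
      intro c hc c' hc'
      exact hC c hc c' hc' (by rw [pow_zero]; exact one_dvd _)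
    have h2 : ∑ c ∈ C, gg η b 0 c = C.card := by
      unfold gg
      simp
    rw [h2, pow_zero]
    exact_mod_cast h1
  | succ w ih =>
    intro C hC
    have hη0 : 0 ≤ 1 + b * η := by positivity
    have hstep : ∀ c, gg η b (w + 1) c = gg η b w c * (if near b w c then 1 else η) := by
      intro c
      unfold gg
      rw [prod_range_succ]
    rw [← sum_filter_add_sum_filter_not C (fun c => near b w c)]
    have h1 : ∑ c ∈ C.filter (fun c => near b w c), gg η b (w + 1) c ≤ (1 + b * η) ^ w := by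
      have e : ∑ c ∈ C.filter (fun c => near b w c), gg η b (w + 1) c =
          ∑ c ∈ C.filter (fun c => near b w c), gg η b w c := by
        apply sum_congr rfl
        intro c hc
        rw [hstep, if_pos (mem_filter.1 hc).2, mul_one]
      rw [e]
      apply ih
      intro c hc c' hc' hd
      rw [mem_filter] at hc hc'
      exact hC c hc.1 c' hc'.1 (near_unique hb hc.2 hc'.2 hd)
    have h2 : ∑ c ∈ C.filter (fun c => ¬ near b w c), gg η b (w + 1) c ≤ η * (b * (1 + b * η) ^ w) := by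
      have e : ∑ c ∈ C.filter (fun c => ¬ near b w c), gg η b (w + 1) c =
          η * ∑ c ∈ C.filter (fun c => ¬ near b w c), gg η b w c := by
        rw [mul_sum]
        apply sum_congr rfl
        intro c hc
        rw [hstep, if_neg (mem_filter.1 hc).2, mul_comm]
      rw [e]
      apply mul_le_mul_of_nonneg_left _ hη
      have hb0 : (b : ℤ) ≠ 0 := by exact_mod_cast (by omega : b ≠ 0)
      have hbp : (0 : ℤ) < b := by exact_mod_cast (by omega : 0 < b)
      have hmaps : ∀ c ∈ C.filter (fun c => ¬ near b w c), (c / (b : ℤ) ^ w) % b ∈ Ico (0 : ℤ) b := by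
        intro c _
        rw [mem_Ico]
        exact ⟨Int.emod_nonneg _ hb0, Int.emod_lt_of_pos _ hbp⟩
      rw [← sum_fiberwise_of_maps_to hmaps]
      have h3 : ∀ a ∈ Ico (0 : ℤ) b,
          ∑ c ∈ (C.filter (fun c => ¬ near b w c)).filter (fun c => (c / (b : ℤ) ^ w) % b = a), gg η b w c ≤
            (1 + b * η) ^ w := by
        intro a _
        apply ih
        intro c hc c' hc' hd
        rw [mem_filter, mem_filter] at hc hc'
        apply hC c hc.1.1 c' hc'.1.1
        obtain ⟨x, hx⟩ := hd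
        have hbw : (0 : ℤ) < (b : ℤ) ^ w := by positivity
        have h5 : c / (b : ℤ) ^ w = c' / (b : ℤ) ^ w + x := by
          have : c = c' + (b : ℤ) ^ w * x := by linarith
          rw [this, Int.add_mul_ediv_left _ _ hbw.ne']
        have h6 : (b : ℤ) ∣ x := by
          have h7 : (c / (b : ℤ) ^ w) % b = (c' / (b : ℤ) ^ w) % b := by rw [hc.2, hc'.2]
          have h9 : (b : ℤ) ∣ c / (b : ℤ) ^ w - c' / (b : ℤ) ^ w := Int.ModEq.dvd h7.symm
          rw [h5] at h9
          simpa using h9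
        obtain ⟨z, hz⟩ := h6
        rw [hx, hz, pow_succ]
        exact ⟨z, by ring⟩
      refine (sum_le_sum h3).trans (le_of_eq ?_)
      rw [sum_const, Int.card_Ico, nsmul_eq_mul]
      simp
    calc _ ≤ (1 + b * η) ^ w + η * (b * (1 + b * η) ^ w) := add_le_add h1 h2
      _ = (1 + b * η) ^ (w + 1) := by ring

/-- the factor at the other places -/
noncomputable def kap (b : ℕ) : ℝ := 1 - 1 / (8 * (b : ℝ) ^ 2)

lemma kap_nonneg {b : ℕ} (hb : 2 ≤ b) : 0 ≤ kap b := by
  unfold kap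
  have hb2 : (2 : ℝ) ≤ b := by exact_mod_cast hb
  rw [sub_nonneg, div_le_one (by positivity)]
  nlinarith

lemma kap_le_one (b : ℕ) : kap b ≤ 1 := by
  unfold kap
  have : 0 ≤ 1 / (8 * (b : ℝ) ^ 2) := by positivity
  linarith

lemma fac_le (b : ℕ) (hb : 2 ≤ b) (θ : ℝ) (h : 1 / (4 * (b : ℝ)) ≤ nd θ) : ‖1 + e θ‖ / 2 ≤ kap b := by
  have h1 := fac_le_of_nd (2 * b) (by omega) θ (by
    push_cast
    refine le_trans (le_of_eq ?_) h
    ring)
  refine h1.trans (le_of_eq ?_)
  unfold kap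
  push_cast
  ring

/-- a place where `x b ^ j` is near an integer -/
lemma near_of_nd {b : ℕ} (hb : 2 ≤ b) {w j : ℕ} (hj : j < w) {x : ℝ} (h : nd (x * b ^ j) < 1 / (4 * (b : ℝ))) :
    near b (w - 1 - j) (round (x * (b : ℝ) ^ w)) := by
  have hb0 : (0 : ℝ) < b := by positivity
  obtain ⟨i, hi⟩ : ∃ i, i = w - 1 - j := ⟨_, rfl⟩
  rw [← hi]
  have hw : w = j + (i + 1) := by omega
  refine ⟨round (x * b ^ j), ?_⟩
  have h1 : |x * (b : ℝ) ^ w - round (x * b ^ j) * (b : ℝ) ^ (i + 1)| < (b : ℝ) ^ i / 4 := by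
    have e1 : x * (b : ℝ) ^ w - round (x * b ^ j) * (b : ℝ) ^ (i + 1) = (x * b ^ j - round (x * b ^ j)) * (b : ℝ) ^ (i + 1) := by
      rw [hw, pow_add]
      ring
    rw [e1, abs_mul, abs_of_pos (by positivity : (0 : ℝ) < (b : ℝ) ^ (i + 1))]
    calc |x * b ^ j - round (x * b ^ j)| * (b : ℝ) ^ (i + 1) < 1 / (4 * (b : ℝ)) * (b : ℝ) ^ (i + 1) :=
          mul_lt_mul_of_pos_right h (by positivity)
      _ = (b : ℝ) ^ i / 4 := by rw [pow_succ]; field_simp
  have h2 := abs_sub_round (x * (b : ℝ) ^ w)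
  have h3 : |((round (x * (b : ℝ) ^ w) - round (x * b ^ j) * (b : ℤ) ^ (i + 1) : ℤ) : ℝ)| < (b : ℝ) ^ i / 4 + 1 / 2 := by
    push_cast
    have e2 : (round (x * (b : ℝ) ^ w) : ℝ) - round (x * b ^ j) * (b : ℝ) ^ (i + 1) =
        (x * (b : ℝ) ^ w - round (x * b ^ j) * (b : ℝ) ^ (i + 1)) - (x * (b : ℝ) ^ w - round (x * (b : ℝ) ^ w)) := by ring
    rw [e2]
    refine lt_of_le_of_lt (abs_sub _ _) ?_
    linarith
  have h4 : (4 * |round (x * (b : ℝ) ^ w) - round (x * b ^ j) * (b : ℤ) ^ (i + 1)| : ℝ) < (b : ℝ) ^ i + 2 := by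
    have h5 : ((|round (x * (b : ℝ) ^ w) - round (x * b ^ j) * (b : ℤ) ^ (i + 1)| : ℤ) : ℝ) =
      |((round (x * (b : ℝ) ^ w) - round (x * b ^ j) * (b : ℤ) ^ (i + 1) : ℤ) : ℝ)| := by rw [Int.cast_abs]
    have h6 := h3
    push_cast at h6
    linarith
  exact_mod_cast h4

/-- **The product is at most `gg`.** -/
lemma Phi_le_gg {b : ℕ} (hb : 2 ≤ b) (w : ℕ) (x : ℝ) : Phi b w x ≤ gg (kap b) b w (round (x * (b : ℝ) ^ w)) := by
  classical
  unfold Phi gg
  rw [← prod_range_reflect (fun i => if near b i (round (x * (b : ℝ) ^ w)) then (1 : ℝ) else kap b) w]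
  apply prod_le_prod (fun i _ => fac_nonneg _)
  intro j hj
  rw [mem_range] at hj
  split_ifs with h
  · exact fac_le_one _
  · apply fac_le b hb
    by_contra hcon
    push Not at hcon
    exact h (near_of_nd hb hj hcon)

lemma gg_pow {η : ℝ} (b w : ℕ) (c : ℤ) (J : ℕ) : gg η b w c ^ J = gg (η ^ J) b w c := by
  classical
  unfold gg
  rw [← prod_pow]
  apply prod_congr rfl
  intro i _
  split_ifs
  · exact one_pow J
  · rfl

end Pool.Agent.H56.HS
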