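import Pool.Agent.H56.HS.Mult

/-!
# Either the products are small on average or there is a good denominator
-/

set_option autoImplicit false

namespace Pool.Agent.H56.HS

open Finset Pool.Agent.W10.HS

lemma nd_mul_small (k : ℕ) (x : ℝ) (h : k * nd x ≤ 1 / 2) : nd (k * x) = k * nd x := by
  have h1 : |(k : ℝ) * x - (((k : ℤ) * round x : ℤ) : ℝ)| = k * nd x := by
    push_cast
    rw [← mul_sub, abs_mul, abs_of_nonneg (by positivity : (0 : ℝ) ≤ k)]
    rfl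
  rw [← h1]
  apply nd_eq
  rw [h1]
  exact h

/-- if at each of `r + 1` places some multiple is very near an integer, one multiple is near at all of them -/
lemma run2 (b w r N' : ℕ) (hb : 2 ≤ b) (hN1 : 1 ≤ N') (hN : 2 * N' ≤ b ^ w) (θ : ℝ)
    (h : ∀ i ≤ r, ∃ n : ℕ, 1 ≤ n ∧ n ≤ N' ∧ nd (n * θ * (b : ℝ) ^ (i * w)) ≤ 1 / (b : ℝ) ^ (3 * w)) :
    ∃ Q : ℕ, 1 ≤ Q ∧ Q ≤ N' ∧ nd (Q * θ) ≤ 1 / (2 * (b : ℝ) ^ (r * w)) := by
  obtain ⟨Q, hQ1, hQ2, hQ3⟩ := h 0 (Nat.zero_le r)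
  rw [zero_mul, pow_zero, mul_one] at hQ3
  obtain ⟨B, hB⟩ : ∃ B : ℝ, B = (b : ℝ) ^ w := ⟨_, rfl⟩
  have hNB : 2 * (N' : ℝ) ≤ B := by
    rw [hB]
    exact_mod_cast hN
  have hN1r : (1 : ℝ) ≤ N' := by exact_mod_cast hN1
  have hB2 : 2 ≤ B := by linarith
  have hB0 : 0 < B := by linarith
  have hB3 : (b : ℝ) ^ (3 * w) = B ^ 3 := by rw [hB, ← pow_mul, mul_comm]
  rw [hB3] at hQ3
  have hQr : (Q : ℝ) ≤ N' := by exact_mod_cast hQ2
  have hcl : ∀ i ≤ r, nd (Q * θ * (b : ℝ) ^ (i * w)) ≤ 1 / B ^ 2 ∧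
      nd (Q * θ * (b : ℝ) ^ (i * w)) = nd (Q * θ) * (b : ℝ) ^ (i * w) := by
    intro i
    induction i with
    | zero =>
      intro _
      rw [zero_mul, pow_zero, mul_one, mul_one]
      refine ⟨hQ3.trans ?_, rfl⟩
      apply one_div_le_one_div_of_le (by positivity)
      nlinarith [sq_nonneg B, mul_pos hB0 hB0]
    | succ i ih =>
      intro hi
      obtain ⟨h1, h2⟩ := ih (by omega)
      obtain ⟨z, hz⟩ : ∃ z : ℝ, z = Q * θ * (b : ℝ) ^ (i * w) := ⟨_, rfl⟩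
      rw [← hz] at h1 h2
      have e1 : Q * θ * (b : ℝ) ^ ((i + 1) * w) = ((b ^ w : ℕ) : ℝ) * z := by
        rw [hz, Nat.succ_mul, pow_add]
        push_cast
        ring
      have hz0 : 0 ≤ nd z := nd_nonneg z
      have h3 : B * nd z ≤ 1 / B := by
        calc B * nd z ≤ B * (1 / B ^ 2) := mul_le_mul_of_nonneg_left h1 hB0.le
          _ = 1 / B := by field_simp
      have h3' : 1 / B ≤ 1 / 2 := one_div_le_one_div_of_le (by norm_num) hB2
      have hBn : ((b ^ w : ℕ) : ℝ) = B := by rw [hB]; push_cast; rfl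
      have h4 : nd (((b ^ w : ℕ) : ℝ) * z) = B * nd z := by
        rw [nd_mul_small _ _ (by rw [hBn]; linarith), hBn]
      obtain ⟨n, hn1, hn2, hn3⟩ := h (i + 1) hi
      rw [hB3] at hn3
      have hn1r : (1 : ℝ) ≤ n := by exact_mod_cast hn1
      have hn2r : (n : ℝ) ≤ N' := by exact_mod_cast hn2
      obtain ⟨y, hy⟩ : ∃ y : ℝ, y = ((b ^ w : ℕ) : ℝ) * z := ⟨_, rfl⟩
      rw [← hy] at h4
      have hy0 : 0 ≤ nd y := nd_nonneg y
      have h5 : n * nd y ≤ 1 / 2 := by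
        rw [h4]
        calc (n : ℝ) * (B * nd z) ≤ N' * (1 / B) := mul_le_mul hn2r h3 (by positivity) (by positivity)
          _ ≤ 1 / 2 := by
            rw [mul_one_div, div_le_div_iff₀ hB0 (by norm_num)]
            linarith
      have h6 : nd (n * y) = n * nd y := nd_mul_small n y h5
      have h7 : (n : ℝ) * y = Q * (n * θ * (b : ℝ) ^ ((i + 1) * w)) := by
        rw [hy, ← e1]
        ring
      have h8 : nd y ≤ 1 / B ^ 2 := by
        calc nd y ≤ n * nd y := le_mul_of_one_le_left hy0 hn1r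
          _ = nd (n * y) := h6.symm
          _ ≤ Q * nd (n * θ * (b : ℝ) ^ ((i + 1) * w)) := by
            rw [h7]
            exact nd_nat_mul Q _
          _ ≤ N' * (1 / B ^ 3) := mul_le_mul hQr hn3 (nd_nonneg _) (by positivity)
          _ ≤ B * (1 / B ^ 3) := mul_le_mul_of_nonneg_right (by linarith) (by positivity)
          _ = 1 / B ^ 2 := by field_simp
      rw [e1, ← hy]
      refine ⟨h8, ?_⟩
      rw [h4, h2, Nat.succ_mul, pow_add, ← hB]
      ring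
  obtain ⟨h1, h2⟩ := hcl r le_rfl
  refine ⟨Q, hQ1, hQ2, ?_⟩
  have hb0 : (0 : ℝ) < (b : ℝ) ^ (r * w) := by positivity
  rw [h2] at h1
  have h3 : 1 / B ^ 2 ≤ 1 / 2 := by
    apply one_div_le_one_div_of_le (by norm_num)
    nlinarith
  rw [le_div_iff₀ (by positivity)]
  linarith

/-- the product over `(W + 2) w` places is at most the sum over any `3 J` windows of length `3 w` of the `J`-th powers -/
lemma Phi_le_sum_windows (b w W J : ℕ) (β : ℝ) (U : Finset ℕ) (hU : U ⊆ range W) (hcard : U.card = 3 * J)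
    (hJ : 1 ≤ J) : Phi b ((W + 2) * w) β ≤ ∑ u ∈ U, Phi b (3 * w) (β * (b : ℝ) ^ (u * w)) ^ J := by
  classical
  obtain ⟨ψ, hψ⟩ : ∃ ψ : ℕ → ℝ, ψ = fun v => Phi b w (β * (b : ℝ) ^ (v * w)) := ⟨_, rfl⟩
  have h0 : ∀ v, 0 ≤ ψ v := fun v => by rw [hψ]; exact Phi_nonneg _ _ _
  have h1 : ∀ v, ψ v ≤ 1 := fun v => by rw [hψ]; exact Phi_le_one _ _ _
  have hP : Phi b ((W + 2) * w) β = ∏ v ∈ range (W + 2), ψ v := by rw [Phi_windows, hψ]
  have hF : ∀ u, Phi b (3 * w) (β * (b : ℝ) ^ (u * w)) = ψ u * ψ (u + 1) * ψ (u + 2) := by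
    intro u
    rw [Phi_windows, prod_range_succ, prod_range_succ, prod_range_one, hψ]
    simp only
    congr 1
    · congr 1
      · rw [zero_mul, pow_zero, mul_one]
      · congr 1
        rw [mul_assoc, ← pow_add]
        congr 2
        ring
    · congr 1
      rw [mul_assoc, ← pow_add]
      congr 2
      ring
  have hsub : ∀ a ≤ 2, ∏ v ∈ range (W + 2), ψ v ≤ ∏ u ∈ U, ψ (u + a) := by
    intro a ha
    have h2 : ∏ u ∈ U, ψ (u + a) = ∏ v ∈ U.map (addRightEmbedding a), ψ v := by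
      rw [prod_map]
      rfl
    rw [h2]
    have h3 : U.map (addRightEmbedding a) ⊆ range (W + 2) := by
      intro v hv
      rw [mem_map] at hv
      obtain ⟨u, hu, rfl⟩ := hv
      have := mem_range.1 (hU hu)
      rw [mem_range, addRightEmbedding_apply]
      omega
    rw [← prod_sdiff h3]
    have h4 : ∏ v ∈ range (W + 2) \ U.map (addRightEmbedding a), ψ v ≤ 1 := prod_le_one (fun v _ => h0 v) fun v _ => h1 v
    have h5 : 0 ≤ ∏ v ∈ U.map (addRightEmbedding a), ψ v := prod_nonneg fun v _ => h0 v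
    calc _ ≤ 1 * ∏ v ∈ U.map (addRightEmbedding a), ψ v := mul_le_mul_of_nonneg_right h4 h5
      _ = _ := one_mul _
  have hne : U.Nonempty := by
    rw [← card_pos]
    omega
  obtain ⟨v, hv, hmax⟩ := exists_max_image U (fun u => ψ u * ψ (u + 1) * ψ (u + 2)) hne
  have hP0 : 0 ≤ ∏ v ∈ range (W + 2), ψ v := prod_nonneg fun v _ => h0 v
  have hF0 : ∀ u, 0 ≤ ψ u * ψ (u + 1) * ψ (u + 2) := fun u => mul_nonneg (mul_nonneg (h0 _) (h0 _)) (h0 _)
  have hcube : (∏ v ∈ range (W + 2), ψ v) ^ 3 ≤ ((ψ v * ψ (v + 1) * ψ (v + 2)) ^ J) ^ 3 := by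
    calc (∏ v ∈ range (W + 2), ψ v) ^ 3 = (∏ v ∈ range (W + 2), ψ v) * (∏ v ∈ range (W + 2), ψ v) *
          (∏ v ∈ range (W + 2), ψ v) := by ring
      _ ≤ (∏ u ∈ U, ψ (u + 0)) * (∏ u ∈ U, ψ (u + 1)) * (∏ u ∈ U, ψ (u + 2)) := by
          apply mul_le_mul (mul_le_mul (hsub 0 (by omega)) (hsub 1 (by omega)) hP0 ?_) (hsub 2 le_rfl) hP0 ?_
          · exact prod_nonneg fun _ _ => h0 _
          · exact mul_nonneg (prod_nonneg fun _ _ => h0 _) (prod_nonneg fun _ _ => h0 _)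
      _ = ∏ u ∈ U, (ψ u * ψ (u + 1) * ψ (u + 2)) := by
          rw [prod_mul_distrib, prod_mul_distrib]
          simp only [add_zero]
      _ ≤ ∏ _u ∈ U, (ψ v * ψ (v + 1) * ψ (v + 2)) := prod_le_prod (fun u _ => hF0 u) hmax
      _ = ((ψ v * ψ (v + 1) * ψ (v + 2)) ^ J) ^ 3 := by
          rw [prod_const, hcard, mul_comm 3 J, pow_mul]
  have h6 : ∏ v ∈ range (W + 2), ψ v ≤ (ψ v * ψ (v + 1) * ψ (v + 2)) ^ J :=
    (pow_le_pow_iff_left₀ hP0 (pow_nonneg (hF0 v) J) (by norm_num)).1 hcube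
  rw [hP]
  refine h6.trans ?_
  rw [← hF v]
  exact single_le_sum (f := fun u => Phi b (3 * w) (β * (b : ℝ) ^ (u * w)) ^ J)
    (fun u _ => pow_nonneg (Phi_nonneg _ _ _) J) hv

/-- **Dichotomy.** -/
lemma dich (b w r J N' : ℕ) (hb : 2 ≤ b) (hJ : 1 ≤ J) (hN1 : 1 ≤ N') (hN : 2 * N' ≤ b ^ w) (θ : ℝ) :
    (∑ n ∈ Icc 1 N', Phi b ((3 * J * (r + 1) + 2) * w) (n * θ) ≤ 3 * J * (1 + b * kap b ^ J) ^ (3 * w)) ∨
    (∃ Q : ℕ, 1 ≤ Q ∧ Q ≤ N' ∧ ∃ u : ℕ, u + r < 3 * J * (r + 1) ∧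
      nd (Q * θ * (b : ℝ) ^ (u * w)) ≤ 1 / (2 * (b : ℝ) ^ (r * w))) := by
  classical
  obtain ⟨Un, hUn⟩ : ∃ Un : Finset ℕ, ∀ u, u ∈ Un ↔ u ∈ range (3 * J * (r + 1)) ∧
    ∀ n ∈ Icc 1 N', 1 / (b : ℝ) ^ (3 * w) < nd (n * θ * (b : ℝ) ^ (u * w)) := by
    obtain ⟨P, hP⟩ : ∃ P : ℕ → Prop, P = fun u => ∀ n ∈ Icc 1 N', 1 / (b : ℝ) ^ (3 * w) <
      nd (n * θ * (b : ℝ) ^ (u * w)) := ⟨_, rfl⟩
    refine ⟨(range (3 * J * (r + 1))).filter P, fun u => ?_⟩
    rw [mem_filter, hP]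
  by_cases hc : 3 * J ≤ Un.card
  · left
    obtain ⟨U, hU, hUc⟩ := exists_subset_card_eq hc
    have hUr : U ⊆ range (3 * J * (r + 1)) := fun u hu => ((hUn u).1 (hU hu)).1
    calc ∑ n ∈ Icc 1 N', Phi b ((3 * J * (r + 1) + 2) * w) (n * θ) ≤
          ∑ n ∈ Icc 1 N', ∑ u ∈ U, Phi b (3 * w) (n * θ * (b : ℝ) ^ (u * w)) ^ J :=
          sum_le_sum fun n _ => Phi_le_sum_windows b w _ J _ U hUr hUc hJ
      _ = ∑ u ∈ U, ∑ n ∈ Icc 1 N', Phi b (3 * w) (n * θ * (b : ℝ) ^ (u * w)) ^ J := sum_comm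
      _ ≤ ∑ _u ∈ U, (1 + b * kap b ^ J) ^ (3 * w) := by
          apply sum_le_sum
          intro u hu
          have hu2 := hU hu
          rw [hUn] at hu2
          apply sep_sum hb (Icc 1 N') (fun n : ℕ => (n : ℝ) * θ * (b : ℝ) ^ (u * w)) (3 * w) J
          intro n hn n' hn' hne
          rw [mem_Icc] at hn hn'
          wlog hlt : n' < n generalizing n n'
          · rw [← nd_neg]
            have := this n' hn' n hn (Ne.symm hne) (by omega)
            rwa [show (n' : ℝ) * θ * (b : ℝ) ^ (u * w) - (n : ℝ) * θ * (b : ℝ) ^ (u * w) =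
              -((n : ℝ) * θ * (b : ℝ) ^ (u * w) - (n' : ℝ) * θ * (b : ℝ) ^ (u * w)) by ring] at this
          have e1 : (n : ℝ) * θ * (b : ℝ) ^ (u * w) - (n' : ℝ) * θ * (b : ℝ) ^ (u * w) =
              ((n - n' : ℕ) : ℝ) * θ * (b : ℝ) ^ (u * w) := by
            rw [Nat.cast_sub hlt.le]
            ring
          rw [e1]
          exact hu2.2 (n - n') (mem_Icc.2 ⟨by omega, by omega⟩)
      _ = 3 * J * (1 + b * kap b ^ J) ^ (3 * w) := by
          rw [sum_const, hUc, nsmul_eq_mul]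
          push_cast
          ring
  · right
    push Not at hc
    have h1 : ∃ i ∈ range (3 * J), ∀ u ∈ Un, u / (r + 1) ≠ i := by
      by_contra hcon
      push Not at hcon
      have h2 : range (3 * J) ⊆ Un.image (fun u => u / (r + 1)) := by
        intro i hi
        obtain ⟨u, hu, hui⟩ := hcon i hi
        exact mem_image.2 ⟨u, hu, hui⟩
      have h3 := (card_le_card h2).trans card_image_le
      rw [card_range] at h3
      omega
    obtain ⟨i, hi, hiU⟩ := h1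
    rw [mem_range] at hi
    obtain ⟨Q, hQ1, hQ2, hQ3⟩ := run2 b w r N' hb hN1 hN (θ * (b : ℝ) ^ (i * (r + 1) * w)) (by
      intro j hj
      have h2 : i * (r + 1) + j ∉ Un := by
        intro hmem
        apply hiU _ hmem
        rw [Nat.mul_comm, Nat.mul_add_div (by omega), Nat.div_eq_of_lt (by omega), add_zero]
      have h3 : i * (r + 1) + j < 3 * J * (r + 1) := by
        calc i * (r + 1) + j < i * (r + 1) + (r + 1) := by omega
          _ = (i + 1) * (r + 1) := by ring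
          _ ≤ 3 * J * (r + 1) := Nat.mul_le_mul_right _ hi
      rw [hUn] at h2
      push Not at h2
      obtain ⟨n, hn, hn2⟩ := h2 (mem_range.2 h3)
      rw [mem_Icc] at hn
      refine ⟨n, hn.1, hn.2, ?_⟩
      refine le_trans (le_of_eq ?_) hn2
      congr 1
      rw [Nat.add_mul, pow_add]
      ring)
    refine ⟨Q, hQ1, hQ2, i * (r + 1), ?_, ?_⟩
    · calc i * (r + 1) + r < (i + 1) * (r + 1) := by
            have : (i + 1) * (r + 1) = i * (r + 1) + (r + 1) := by ring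
            omega
        _ ≤ 3 * J * (r + 1) := Nat.mul_le_mul_right _ hi
    · refine le_trans (le_of_eq ?_) hQ3
      congr 1
      ring

end Pool.Agent.H56.HS
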