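import Pool.Agent.H56.HS.Count

/-!
# Zero-one multiples with few digits
-/

set_option autoImplicit false

namespace Pool.Agent.H56.HS

open Finset Pool.Agent.W10.HS

lemma Phi_add (b m n : ℕ) (β : ℝ) : Phi b (m + n) β = Phi b m β * Phi b n (β * (b : ℝ) ^ m) := by
  unfold Phi
  rw [prod_range_add]
  congr 1
  apply prod_congr rfl
  intro i _
  rw [pow_add, mul_assoc]

lemma Phi_windows (b w : ℕ) (β : ℝ) (W : ℕ) : Phi b (W * w) β = ∏ u ∈ range W, Phi b w (β * (b : ℝ) ^ (u * w)) := by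
  induction W with
  | zero => simp [Phi]
  | succ W ih => rw [prod_range_succ, ← ih, Nat.succ_mul, Phi_add]

/-- points which are separated by more than `b ^ (-w)` modulo one -/
lemma sep_sum {b : ℕ} (hb : 2 ≤ b) {ι : Type} (I : Finset ι) (x : ι → ℝ) (w J : ℕ)
    (h : ∀ i ∈ I, ∀ i' ∈ I, i ≠ i' → 1 / (b : ℝ) ^ w < nd (x i - x i')) :
    ∑ i ∈ I, Phi b w (x i) ^ J ≤ (1 + b * kap b ^ J) ^ w := by
  classical
  have hb0 : (0 : ℝ) < b := by positivity
  have hinj : ∀ i ∈ I, ∀ i' ∈ I, (b : ℤ) ^ w ∣ round (x i * (b : ℝ) ^ w) - round (x i' * (b : ℝ) ^ w) → i = i' := by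
    intro i hi i' hi' hd
    by_contra hne
    have h1 := h i hi i' hi' hne
    obtain ⟨m, hm⟩ := hd
    have h2 : nd (x i - x i') ≤ 1 / (b : ℝ) ^ w := by
      refine (nd_le _ m).trans ?_
      have h3 := abs_sub_round (x i * (b : ℝ) ^ w)
      have h4 := abs_sub_round (x i' * (b : ℝ) ^ w)
      have h5 : ((round (x i * (b : ℝ) ^ w) : ℝ)) - round (x i' * (b : ℝ) ^ w) = (b : ℝ) ^ w * m := by exact_mod_cast hm
      rw [le_div_iff₀ (by positivity)]
      have h6 : |x i - x i' - m| * (b : ℝ) ^ w = |(x i * (b : ℝ) ^ w - round (x i * (b : ℝ) ^ w)) -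
          (x i' * (b : ℝ) ^ w - round (x i' * (b : ℝ) ^ w))| := by
        rw [← abs_of_pos (by positivity : (0 : ℝ) < (b : ℝ) ^ w), ← abs_mul,
          abs_of_pos (by positivity : (0 : ℝ) < (b : ℝ) ^ w)]
        congr 1
        linear_combination h5
      rw [h6]
      refine (abs_sub _ _).trans ?_
      linarith
    linarith
  have hκ : 0 ≤ kap b ^ J := pow_nonneg (kap_nonneg hb) J
  calc ∑ i ∈ I, Phi b w (x i) ^ J ≤ ∑ i ∈ I, gg (kap b ^ J) b w (round (x i * (b : ℝ) ^ w)) := by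
        apply sum_le_sum
        intro i _
        rw [← gg_pow]
        exact pow_le_pow_left₀ (Phi_nonneg _ _ _) (Phi_le_gg hb w _) J
    _ = ∑ c ∈ I.image (fun i => round (x i * (b : ℝ) ^ w)), gg (kap b ^ J) b w c := by
        rw [sum_image]
        intro i hi i' hi' hii
        exact hinj i hi i' hi' (by simp only at hii; rw [hii, sub_self]; exact dvd_zero _)
    _ ≤ (1 + b * kap b ^ J) ^ w := by
        apply sum_gg hb hκ
        intro c hc c' hc' hd
        rw [mem_image] at hc hc'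
        obtain ⟨i, hi, rfl⟩ := hc
        obtain ⟨i', hi', rfl⟩ := hc'
        rw [hinj i hi i' hi' hd]

/-- a product of at least `J` numbers between `0` and `1` is at most the sum of their `J`-th powers -/
lemma prod_le_sum_pow {ι : Type} (U : Finset ι) (f : ι → ℝ) (h0 : ∀ u ∈ U, 0 ≤ f u) (h1 : ∀ u ∈ U, f u ≤ 1) (J : ℕ)
    (hJ : J ≤ U.card) (hU : U.Nonempty) : ∏ u ∈ U, f u ≤ ∑ u ∈ U, f u ^ J := by
  obtain ⟨v, hv, hmax⟩ := exists_max_image U f hU
  calc ∏ u ∈ U, f u ≤ ∏ _u ∈ U, f v := prod_le_prod h0 hmax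
    _ = f v ^ U.card := by rw [prod_const]
    _ ≤ f v ^ J := pow_le_pow_of_le_one (h0 v hv) (h1 v hv) hJ
    _ ≤ ∑ u ∈ U, f u ^ J := single_le_sum (f := fun u => f u ^ J) (fun u hu => pow_nonneg (h0 u hu) J) hv

lemma kap_pow {b : ℕ} (hb : 2 ≤ b) (j : ℕ) : kap b ^ (8 * b ^ 2 * j) ≤ (1 / 2) ^ j := by
  rw [pow_mul]
  apply pow_le_pow_left₀ (pow_nonneg (kap_nonneg hb) _)
  have hb0 : (0 : ℝ) < b := by positivity
  have h1 : kap b ≤ Real.exp (-(1 / (8 * (b : ℝ) ^ 2))) := by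
    unfold kap
    exact Real.one_sub_le_exp_neg _
  calc kap b ^ (8 * b ^ 2) ≤ Real.exp (-(1 / (8 * (b : ℝ) ^ 2))) ^ (8 * b ^ 2) :=
        pow_le_pow_left₀ (kap_nonneg hb) h1 _
    _ = Real.exp (-1) := by
        rw [← Real.exp_nat_mul]
        congr 1
        push_cast
        field_simp
    _ ≤ 1 / 2 := by
        rw [Real.exp_neg, one_div]
        apply inv_anti₀ (by norm_num)
        have := Real.exp_one_gt_d9
        linarith

/-- a point at distance at least `b ^ (-w)` from the integers has a factor at most `kap b` among the first `w` -/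
lemma Phi_le_kap {b : ℕ} (hb : 2 ≤ b) (w : ℕ) (x : ℝ) (hx : 1 / (2 * (b : ℝ) ^ w) < nd x) : Phi b w x ≤ kap b := by
  have hb0 : (0 : ℝ) < b := by positivity
  have h1 : ∃ i < w, 1 / (4 * (b : ℝ)) ≤ nd (x * b ^ i) := by
    by_contra hcon
    push Not at hcon
    have h2 := run b hb w x (fun v hv => (hcon v hv).trans_le (by
      apply one_div_le_one_div_of_le (by positivity)
      linarith))
    linarith
  obtain ⟨i, hi, h2⟩ := h1
  unfold Phi
  rw [← mul_prod_erase (range w) _ (mem_range.2 hi)]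
  have h3 : ∏ x_1 ∈ (range w).erase i, ‖1 + e (x * (b : ℝ) ^ x_1)‖ / 2 ≤ 1 :=
    prod_le_one (fun _ _ => fac_nonneg _) fun _ _ => fac_le_one _
  calc ‖1 + e (x * (b : ℝ) ^ i)‖ / 2 * ∏ x_1 ∈ (range w).erase i, ‖1 + e (x * (b : ℝ) ^ x_1)‖ / 2 ≤
        kap b * 1 := mul_le_mul (fac_le b hb _ h2) h3 (prod_nonneg fun _ _ => fac_nonneg _) (kap_nonneg hb)
    _ = kap b := mul_one _

/-- Every `Q ≤ b ^ R` coprime to `b` has a zero-one multiple with at most `16 b ^ 2 j (R + 1)` digits. -/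
lemma exists_multiple_coprime (b Q R j : ℕ) (hb : 2 ≤ b) (hQ : 1 ≤ Q) (hcop : Nat.Coprime Q b) (hQR : Q ≤ b ^ R)
    (hj1 : b * (R + 1) ≤ 2 ^ j) (hj2 : 96 * b ^ 2 * j ≤ 2 ^ j) (hj3 : 1 ≤ j) :
    ∃ s ∈ zeroOne b, Q ∣ s ∧ s < b ^ (16 * b ^ 2 * j * (R + 1)) := by
  classical
  have hb2 : (2 : ℝ) ≤ b := by exact_mod_cast hb
  have hb0 : (0 : ℝ) < b := by linarith
  have hQ0 : (0 : ℝ) < Q := by exact_mod_cast hQ
  obtain ⟨w, hw⟩ : ∃ w : ℕ, w = R + 1 := ⟨_, rfl⟩
  obtain ⟨J', hJ'⟩ : ∃ J' : ℕ, J' = 8 * b ^ 2 * j := ⟨_, rfl⟩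
  obtain ⟨J, hJ⟩ : ∃ J : ℕ, J = J' + J' := ⟨_, rfl⟩
  obtain ⟨d, hd⟩ : ∃ d : ℕ, d = J * w := ⟨_, rfl⟩
  have hdd : 16 * b ^ 2 * j * (R + 1) = d := by rw [hd, hJ, hJ', hw]; ring
  rw [hdd]
  have hJ1 : 1 ≤ J := by
    rw [hJ, hJ']
    have : 1 ≤ 8 * b ^ 2 * j := Nat.one_le_iff_ne_zero.2 (by positivity)
    omega
  have hQw : (Q : ℝ) < (b : ℝ) ^ w := by
    have h1 : (Q : ℝ) ≤ (b : ℝ) ^ R := by exact_mod_cast hQR
    refine h1.trans_lt ?_
    rw [hw]
    exact pow_lt_pow_right₀ (by linarith) (by omega)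
  by_contra hcon
  push Not at hcon
  have hno : ∀ A ∈ (range d).powerset, A ≠ ∅ → ¬ (Q ∣ XA b A) := by
    intro A hA hne hdvd
    rw [mem_powerset] at hA
    have h1 := hcon (XA b A) ⟨A, nonempty_iff_ne_empty.mpr hne, rfl⟩ hdvd
    have h2 : XA b A < b ^ d := Nat.geomSum_lt hb (fun i hi => mem_range.mp (hA hi))
    omega
  -- nonzero residues
  have hndQ : ∀ x : ℕ, ¬ Q ∣ x → 1 / (Q : ℝ) ≤ nd ((x : ℝ) / Q) := by
    intro x hx
    by_contra h
    push Not at h
    exact hx (dvd_of_nd_lt Q x hQ h)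
  have hcop' : ∀ (x u : ℕ), Q ∣ x * b ^ u → Q ∣ x := by
    intro x u h
    exact (Nat.Coprime.pow_right u hcop).dvd_of_dvd_mul_right h
  -- the sum of the factors
  have hsum : ∑ a ∈ (range Q).erase 0, Phi b d ((a : ℝ) / Q) ≤ 1 / 2 := by
    have h1 : ∀ a ∈ (range Q).erase 0, Phi b d ((a : ℝ) / Q) ≤
        ∑ u ∈ range J, kap b ^ J' * Phi b w ((a : ℝ) / Q * (b : ℝ) ^ (u * w)) ^ J' := by
      intro a ha
      rw [mem_erase, mem_range] at ha
      have haQ : ¬ Q ∣ a := fun h => by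
        have := Nat.le_of_dvd (by omega) h
        omega
      rw [hd, Phi_windows]
      refine (prod_le_sum_pow (range J) _ (fun _ _ => Phi_nonneg _ _ _) (fun _ _ => Phi_le_one _ _ _) J
        (by rw [card_range]) ⟨0, mem_range.2 hJ1⟩).trans ?_
      apply sum_le_sum
      intro u _
      rw [hJ, pow_add]
      apply mul_le_mul_of_nonneg_right _ (pow_nonneg (Phi_nonneg _ _ _) _)
      apply pow_le_pow_left₀ (Phi_nonneg _ _ _)
      apply Phi_le_kap hb
      have e1 : (a : ℝ) / Q * (b : ℝ) ^ (u * w) = ((a * b ^ (u * w) : ℕ) : ℝ) / Q := by push_cast; ring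
      rw [e1]
      refine lt_of_lt_of_le ?_ (hndQ _ (fun h => haQ (hcop' a _ h)))
      apply one_div_lt_one_div_of_lt hQ0
      have : (0 : ℝ) < (b : ℝ) ^ w := by positivity
      linarith
    have h2 : ∀ u ∈ range J, ∑ a ∈ (range Q).erase 0, Phi b w ((a : ℝ) / Q * (b : ℝ) ^ (u * w)) ^ J' ≤ 3 := by
      intro u _
      have h3 := sep_sum hb ((range Q).erase 0) (fun a : ℕ => (a : ℝ) / Q * (b : ℝ) ^ (u * w)) w J' (by
        intro a ha a' ha' hne
        rw [mem_erase, mem_range] at ha ha'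
        wlog hlt : a' < a generalizing a a'
        · rw [← nd_neg]
          have := this a' ha' a ha (Ne.symm hne) (by omega)
          rwa [show (a' : ℝ) / Q * (b : ℝ) ^ (u * w) - (a : ℝ) / Q * (b : ℝ) ^ (u * w) =
            -((a : ℝ) / Q * (b : ℝ) ^ (u * w) - (a' : ℝ) / Q * (b : ℝ) ^ (u * w)) by ring] at this
        have e1 : (a : ℝ) / Q * (b : ℝ) ^ (u * w) - (a' : ℝ) / Q * (b : ℝ) ^ (u * w) =
            (((a - a') * b ^ (u * w) : ℕ) : ℝ) / Q := by
          push_cast [Nat.cast_sub hlt.le]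
          ring
        rw [e1]
        refine lt_of_lt_of_le ?_ (hndQ _ (fun h => ?_))
        · exact one_div_lt_one_div_of_lt hQ0 hQw
        · have h4 := hcop' _ _ h
          have := Nat.le_of_dvd (by omega) h4
          omega)
      refine h3.trans ?_
      have hw0 : (0 : ℝ) < w := by rw [hw]; positivity
      have h5 : (b : ℝ) * kap b ^ J' ≤ 1 / w := by
        have h6 : kap b ^ J' ≤ (1 / 2) ^ j := by rw [hJ']; exact kap_pow hb j
        have h7 : (b : ℝ) * w ≤ 2 ^ j := by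
          rw [hw]
          exact_mod_cast hj1
        rw [le_div_iff₀ hw0]
        calc (b : ℝ) * kap b ^ J' * w ≤ b * (1 / 2) ^ j * w := by
              apply mul_le_mul_of_nonneg_right _ hw0.le
              exact mul_le_mul_of_nonneg_left h6 hb0.le
          _ = b * w * (1 / 2) ^ j := by ring
          _ ≤ 2 ^ j * (1 / 2) ^ j := mul_le_mul_of_nonneg_right h7 (by positivity)
          _ = 1 := by rw [← mul_pow]; norm_num
      have hκ0 : 0 ≤ (b : ℝ) * kap b ^ J' := mul_nonneg hb0.le (pow_nonneg (kap_nonneg hb) _)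
      calc (1 + (b : ℝ) * kap b ^ J') ^ w ≤ (1 + 1 / (w : ℝ)) ^ w := pow_le_pow_left₀ (by linarith) (by linarith) _
        _ ≤ Real.exp (1 / w) ^ w := by
            apply pow_le_pow_left₀ (by positivity)
            rw [add_comm]
            exact Real.add_one_le_exp _
        _ = Real.exp 1 := by
            rw [← Real.exp_nat_mul]
            congr 1
            field_simp
        _ ≤ 3 := by
            have := Real.exp_one_lt_d9
            linarith
    calc ∑ a ∈ (range Q).erase 0, Phi b d ((a : ℝ) / Q) ≤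
          ∑ a ∈ (range Q).erase 0, ∑ u ∈ range J, kap b ^ J' * Phi b w ((a : ℝ) / Q * (b : ℝ) ^ (u * w)) ^ J' :=
          sum_le_sum h1
      _ = ∑ u ∈ range J, kap b ^ J' * ∑ a ∈ (range Q).erase 0, Phi b w ((a : ℝ) / Q * (b : ℝ) ^ (u * w)) ^ J' := by
          rw [sum_comm]
          apply sum_congr rfl
          intro u _
          rw [mul_sum]
      _ ≤ ∑ _u ∈ range J, (1 / 2) ^ j * 3 := by
          apply sum_le_sum
          intro u hu
          apply mul_le_mul _ (h2 u hu) (sum_nonneg fun _ _ => pow_nonneg (Phi_nonneg _ _ _) _) (by positivity)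
          rw [hJ']
          exact kap_pow hb j
      _ = J * ((1 / 2) ^ j * 3) := by rw [sum_const, card_range, nsmul_eq_mul]
      _ ≤ 1 / 2 := by
          have h8 : (96 : ℝ) * b ^ 2 * j ≤ 2 ^ j := by exact_mod_cast hj2
          have h9 : (J : ℝ) = 16 * b ^ 2 * j := by
            rw [hJ, hJ']
            push_cast
            ring
          rw [h9]
          have h10 : (16 : ℝ) * b ^ 2 * j * ((1 / 2) ^ j * 3) = (96 * b ^ 2 * j) * (1 / 2) ^ j / 2 := by ring
          rw [h10]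
          have h11 : (96 : ℝ) * b ^ 2 * j * (1 / 2) ^ j ≤ 2 ^ j * (1 / 2) ^ j :=
            mul_le_mul_of_nonneg_right h8 (by positivity)
          have h12 : (2 : ℝ) ^ j * (1 / 2) ^ j = 1 := by rw [← mul_pow]; norm_num
          linarith
  -- the double sum
  obtain ⟨S, hS⟩ : ∃ S : ℂ, S = ∑ a ∈ range Q, ∑ A ∈ (range d).powerset, e ((a : ℝ) / Q * XA b A) := ⟨_, rfl⟩
  have hS1 : S = Q := by
    rw [hS, sum_comm, sum_eq_single ∅]
    · unfold XA
      simp [e_zero]
    · intro A hA hne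
      have h1 := orth Q (XA b A) hQ
      rw [if_neg (hno A hA hne)] at h1
      rw [← h1]
      apply sum_congr rfl
      intro a _
      congr 1
      ring
    · intro h
      exact absurd (empty_mem_powerset _) h
  have hS2 : (2 : ℝ) ^ d / 2 ≤ S.re := by
    have h0 : (0 : ℕ) ∈ range Q := mem_range.2 (by omega)
    rw [hS, ← add_sum_erase (range Q) _ h0, Complex.add_re]
    have h1 : (∑ A ∈ (range d).powerset, e (((0 : ℕ) : ℝ) / Q * XA b A)).re = 2 ^ d := by
      have h2 : ∀ A ∈ (range d).powerset, e (((0 : ℕ) : ℝ) / Q * XA b A) = 1 := by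
        intro A _
        simp [e_zero]
      rw [sum_congr rfl h2]
      simp only [sum_const, card_powerset, card_range, nsmul_eq_mul, mul_one]
      rw [Complex.natCast_re]
      push_cast
      rfl
    have h3 : ‖∑ a ∈ (range Q).erase 0, ∑ A ∈ (range d).powerset, e ((a : ℝ) / Q * XA b A)‖ ≤ 2 ^ d * (1 / 2) := by
      calc _ ≤ ∑ a ∈ (range Q).erase 0, ‖∑ A ∈ (range d).powerset, e ((a : ℝ) / Q * XA b A)‖ := norm_sum_le _ _
        _ = ∑ a ∈ (range Q).erase 0, 2 ^ d * Phi b d ((a : ℝ) / Q) := by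
            apply sum_congr rfl
            intro a _
            rw [norm_sum_e_XA]
        _ = 2 ^ d * ∑ a ∈ (range Q).erase 0, Phi b d ((a : ℝ) / Q) := by rw [mul_sum]
        _ ≤ 2 ^ d * (1 / 2) := mul_le_mul_of_nonneg_left hsum (by positivity)
    have h4 := (abs_le.1 ((Complex.abs_re_le_norm _).trans h3)).1
    rw [h1]
    linarith
  rw [hS1, Complex.natCast_re] at hS2
  have h2 : (2 * Q : ℝ) < 2 ^ d := by
    have h3 : 2 * Q < 2 ^ d := by
      calc 2 * Q ≤ 2 * b ^ R := Nat.mul_le_mul_left _ hQR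
        _ ≤ 2 * (2 ^ b) ^ R := Nat.mul_le_mul_left _ (Nat.pow_le_pow_left Nat.lt_two_pow_self.le R)
        _ = 2 ^ (b * R + 1) := by rw [← pow_mul, pow_succ]; ring
        _ < 2 ^ d := by
            apply Nat.pow_lt_pow_right (by norm_num)
            rw [← hdd]
            have e1 : b ≤ b ^ 2 := Nat.le_self_pow (by norm_num) b
            have e2 : b ^ 2 * 1 ≤ b ^ 2 * j := Nat.mul_le_mul_left _ hj3
            have e3 : b * R ≤ b ^ 2 * j * R := Nat.mul_le_mul_right _ (by omega)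
            have e4 : 1 ≤ b ^ 2 * j := by
              have : 4 ≤ b ^ 2 := Nat.pow_le_pow_left hb 2
              omega
            calc b * R + 1 < b ^ 2 * j * R + 16 * (b ^ 2 * j) := by omega
              _ ≤ 16 * (b ^ 2 * j * R) + 16 * (b ^ 2 * j) := by omega
              _ = 16 * b ^ 2 * j * (R + 1) := by ring
    exact_mod_cast h3
  linarith

/-- Every positive integer `Q ≤ b ^ R` has a positive multiple with digits `0` and `1` only and at most
`b R + 16 b ^ 2 j (R + 1)` digits. -/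
lemma exists_multiple_log (b Q R j : ℕ) (hb : 2 ≤ b) (hQ : 1 ≤ Q) (hQR : Q ≤ b ^ R)
    (hj1 : b * (R + 1) ≤ 2 ^ j) (hj2 : 96 * b ^ 2 * j ≤ 2 ^ j) (hj3 : 1 ≤ j) :
    ∃ s ∈ zeroOne b, Q ∣ s ∧ s < b ^ (b * R + 16 * b ^ 2 * j * (R + 1)) := by
  obtain ⟨c, hc⟩ : ∃ c : ℕ, c = b * R := ⟨_, rfl⟩
  obtain ⟨g, hg⟩ : ∃ g : ℕ, g = Nat.gcd Q (b ^ c) := ⟨_, rfl⟩
  have hg1 : 1 ≤ g := by rw [hg]; exact Nat.gcd_pos_of_pos_left _ hQ
  obtain ⟨Q', hQ'⟩ : g ∣ Q := by rw [hg]; exact Nat.gcd_dvd_left _ _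
  have hQ'1 : 1 ≤ Q' := by
    rcases Nat.eq_zero_or_pos Q' with h | h
    · rw [h, mul_zero] at hQ'
      omega
    · exact h
  have hQ'Q : Q' ≤ Q := by rw [hQ']; exact Nat.le_mul_of_pos_left _ hg1
  have hQc : Q ≤ 2 ^ c := by
    rw [hc, pow_mul]
    exact hQR.trans (Nat.pow_le_pow_left (Nat.lt_pow_self (by norm_num)).le R)
  have hcop : Nat.Coprime Q' b := by
    rw [Nat.coprime_iff_gcd_eq_one]
    by_contra hne
    obtain ⟨p, hp, hpd⟩ := Nat.exists_prime_and_dvd hne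
    have hp1 : p ∣ Q' := hpd.trans (Nat.gcd_dvd_left _ _)
    have hp2 : p ∣ b := hpd.trans (Nat.gcd_dvd_right _ _)
    -- the exponent of `p` in `Q`
    have hQ0 : Q ≠ 0 := by omega
    have hv : p ^ (Q.factorization p) ∣ b ^ c := by
      have h1 : Q.factorization p ≤ c := by
        have h2 : p ^ (Q.factorization p) ≤ Q := Nat.ordProj_le p hQ0
        by_contra hlt
        push Not at hlt
        have h3 : 2 ^ c < 2 ^ (Q.factorization p) := Nat.pow_lt_pow_right (by norm_num) hlt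
        have h4 : 2 ^ (Q.factorization p) ≤ p ^ (Q.factorization p) := Nat.pow_le_pow_left hp.two_le _
        omega
      exact (pow_dvd_pow p h1).trans (pow_dvd_pow_of_dvd hp2 c)
    have hvg : p ^ (Q.factorization p) ∣ g := by
      rw [hg]
      exact Nat.dvd_gcd (Nat.ordProj_dvd Q p) hv
    have h5 : p ^ (Q.factorization p + 1) ∣ Q := by
      rw [pow_succ, hQ']
      exact mul_dvd_mul (by rw [← hQ']; exact hvg) hp1
    exact Nat.pow_succ_factorization_not_dvd hQ0 hp h5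
  obtain ⟨s, hs, hs1, hs2⟩ := exists_multiple_coprime b Q' R j hb hQ'1 hcop (hQ'Q.trans hQR) hj1 hj2 hj3
  refine ⟨b ^ c * s, zeroOne_shift b c s hs, ?_, ?_⟩
  · rw [hQ']
    exact mul_dvd_mul (by rw [hg]; exact Nat.gcd_dvd_right _ _) hs1
  · rw [← hc, pow_add]
    exact Nat.mul_lt_mul_of_pos_left hs2 (by positivity)

end Pool.Agent.H56.HS
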