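import Pool.Agent.H56.HS.CorePow

/-!
# Zero-one integers which are divisible by `Q`
-/

set_option autoImplicit false

namespace Pool.Agent.H56.HS

open Finset Pool.Agent.W10.HS

lemma Phi_anti (b m n : ℕ) (h : m ≤ n) (β : ℝ) : Phi b n β ≤ Phi b m β := by
  obtain ⟨k, rfl⟩ := Nat.exists_eq_add_of_le h
  rw [Phi_add]
  exact mul_le_of_le_one_right (Phi_nonneg _ _ _) (Phi_le_one _ _ _)

/-- the products at the nonzero fractions with denominator `Q` sum to at most `1 / 2` -/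
lemma sum_Phi_half (b Q R j m : ℕ) (hb : 2 ≤ b) (hQ : 1 ≤ Q) (hcop : Nat.Coprime Q b) (hQR : Q ≤ b ^ R)
    (hj1 : b * (R + 1) ≤ 2 ^ j) (hj2 : 96 * b ^ 2 * j ≤ 2 ^ j) (hj3 : 1 ≤ j)
    (hm : 16 * b ^ 2 * j * (R + 1) ≤ m) :
    ∑ a ∈ (range Q).erase 0, Phi b m ((a : ℝ) / Q) ≤ 1 / 2 := by
  classical
  have hb2 : (2 : ℝ) ≤ b := by exact_mod_cast hb
  have hb0 : (0 : ℝ) < b := by linarith
  have hQ0 : (0 : ℝ) < Q := by exact_mod_cast hQ
  obtain ⟨w, hw⟩ : ∃ w : ℕ, w = R + 1 := ⟨_, rfl⟩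
  obtain ⟨J', hJ'⟩ : ∃ J' : ℕ, J' = 8 * b ^ 2 * j := ⟨_, rfl⟩
  obtain ⟨J, hJ⟩ : ∃ J : ℕ, J = J' + J' := ⟨_, rfl⟩
  obtain ⟨d, hd⟩ : ∃ d : ℕ, d = J * w := ⟨_, rfl⟩
  have hdd : 16 * b ^ 2 * j * (R + 1) = d := by rw [hd, hJ, hJ', hw]; ring
  rw [hdd] at hm
  have hJ1 : 1 ≤ J := by
    rw [hJ, hJ']
    have : 1 ≤ 8 * b ^ 2 * j := Nat.one_le_iff_ne_zero.2 (by positivity)
    omega
  have hQw : (Q : ℝ) < (b : ℝ) ^ w := by
    have h1 : (Q : ℝ) ≤ (b : ℝ) ^ R := by exact_mod_cast hQR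
    refine h1.trans_lt ?_
    rw [hw]
    exact pow_lt_pow_right₀ (by linarith) (by omega)
  have hndQ : ∀ x : ℕ, ¬ Q ∣ x → 1 / (Q : ℝ) ≤ nd ((x : ℝ) / Q) := by
    intro x hx
    by_contra h
    push Not at h
    exact hx (dvd_of_nd_lt Q x hQ h)
  have hcop' : ∀ (x u : ℕ), Q ∣ x * b ^ u → Q ∣ x := by
    intro x u h
    exact (Nat.Coprime.pow_right u hcop).dvd_of_dvd_mul_right h
  refine (sum_le_sum fun a _ => Phi_anti b d m hm _).trans ?_
  have h1 : ∀ a ∈ (range Q).erase 0, Phi b d ((a : ℝ) / Q) ≤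
      ∑ u ∈ range J, kap b ^ J' * Phi b w ((a : ℝ) / Q * (b : ℝ) ^ (u * w)) ^ J' := by
    intro a ha
    rw [mem_erase, mem_range] at ha
    have haQ : ¬ Q ∣ a := fun h => by
      have := Nat.le_of_dvd (by omega) h
      omega
    rw [hd, Phi_windows]
    refine (prod_le_sum_pow (range J) _ (fun _ _ => Phi_nonneg _ _ _) (fun _ _ => Phi_le_one _ _ _) J
      (by rw [card_range]) ⟨0, mem_range.2 hJ1⟩).trans ?_
    apply sum_le_sum
    intro u _
    rw [hJ, pow_add]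
    apply mul_le_mul_of_nonneg_right _ (pow_nonneg (Phi_nonneg _ _ _) _)
    apply pow_le_pow_left₀ (Phi_nonneg _ _ _)
    apply Phi_le_kap hb
    have e1 : (a : ℝ) / Q * (b : ℝ) ^ (u * w) = ((a * b ^ (u * w) : ℕ) : ℝ) / Q := by push_cast; ring
    rw [e1]
    refine lt_of_lt_of_le ?_ (hndQ _ (fun h => haQ (hcop' a _ h)))
    apply one_div_lt_one_div_of_lt hQ0
    have : (0 : ℝ) < (b : ℝ) ^ w := by positivity
    linarith
  have h2 : ∀ u ∈ range J, ∑ a ∈ (range Q).erase 0, Phi b w ((a : ℝ) / Q * (b : ℝ) ^ (u * w)) ^ J' ≤ 3 := by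
    intro u _
    have h3 := sep_sum hb ((range Q).erase 0) (fun a : ℕ => (a : ℝ) / Q * (b : ℝ) ^ (u * w)) w J' (by
      intro a ha a' ha' hne
      rw [mem_erase, mem_range] at ha ha'
      wlog hlt : a' < a generalizing a a'
      · rw [← nd_neg]
        have := this a' ha' a ha (Ne.symm hne) (by omega)
        rwa [show (a' : ℝ) / Q * (b : ℝ) ^ (u * w) - (a : ℝ) / Q * (b : ℝ) ^ (u * w) =
          -((a : ℝ) / Q * (b : ℝ) ^ (u * w) - (a' : ℝ) / Q * (b : ℝ) ^ (u * w)) by ring] at this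
      have e1 : (a : ℝ) / Q * (b : ℝ) ^ (u * w) - (a' : ℝ) / Q * (b : ℝ) ^ (u * w) =
          (((a - a') * b ^ (u * w) : ℕ) : ℝ) / Q := by
        push_cast [Nat.cast_sub hlt.le]
        ring
      rw [e1]
      refine lt_of_lt_of_le ?_ (hndQ _ (fun h => ?_))
      · exact one_div_lt_one_div_of_lt hQ0 hQw
      · have h4 := hcop' _ _ h
        have := Nat.le_of_dvd (by omega) h4
        omega)
    refine h3.trans ?_
    have hw0 : (0 : ℝ) < w := by rw [hw]; positivity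
    have h5 : (b : ℝ) * kap b ^ J' ≤ 1 / w := by
      have h6 : kap b ^ J' ≤ (1 / 2) ^ j := by rw [hJ']; exact kap_pow hb j
      have h7 : (b : ℝ) * w ≤ 2 ^ j := by
        rw [hw]
        exact_mod_cast hj1
      rw [le_div_iff₀ hw0]
      calc (b : ℝ) * kap b ^ J' * w ≤ b * (1 / 2) ^ j * w := by
            apply mul_le_mul_of_nonneg_right _ hw0.le
            exact mul_le_mul_of_nonneg_left h6 hb0.le
        _ = b * w * (1 / 2) ^ j := by ring
        _ ≤ 2 ^ j * (1 / 2) ^ j := mul_le_mul_of_nonneg_right h7 (by positivity)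
        _ = 1 := by rw [← mul_pow]; norm_num
    have hκ0 : 0 ≤ (b : ℝ) * kap b ^ J' := mul_nonneg hb0.le (pow_nonneg (kap_nonneg hb) _)
    calc (1 + (b : ℝ) * kap b ^ J') ^ w ≤ (1 + 1 / (w : ℝ)) ^ w := pow_le_pow_left₀ (by linarith) (by linarith) _
      _ ≤ Real.exp (1 / w) ^ w := by
          apply pow_le_pow_left₀ (by positivity)
          rw [add_comm]
          exact Real.add_one_le_exp _
      _ = Real.exp 1 := by
          rw [← Real.exp_nat_mul]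
          congr 1
          field_simp
      _ ≤ 3 := by
          have := Real.exp_one_lt_d9
          linarith
  calc ∑ a ∈ (range Q).erase 0, Phi b d ((a : ℝ) / Q) ≤
        ∑ a ∈ (range Q).erase 0, ∑ u ∈ range J, kap b ^ J' * Phi b w ((a : ℝ) / Q * (b : ℝ) ^ (u * w)) ^ J' :=
        sum_le_sum h1
    _ = ∑ u ∈ range J, kap b ^ J' * ∑ a ∈ (range Q).erase 0, Phi b w ((a : ℝ) / Q * (b : ℝ) ^ (u * w)) ^ J' := by
        rw [sum_comm]
        apply sum_congr rfl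
        intro u _
        rw [mul_sum]
    _ ≤ ∑ _u ∈ range J, (1 / 2) ^ j * 3 := by
        apply sum_le_sum
        intro u hu
        apply mul_le_mul _ (h2 u hu) (sum_nonneg fun _ _ => pow_nonneg (Phi_nonneg _ _ _) _) (by positivity)
        rw [hJ']
        exact kap_pow hb j
    _ = J * ((1 / 2) ^ j * 3) := by rw [sum_const, card_range, nsmul_eq_mul]
    _ ≤ 1 / 2 := by
        have h8 : (96 : ℝ) * b ^ 2 * j ≤ 2 ^ j := by exact_mod_cast hj2
        have h9 : (J : ℝ) = 16 * b ^ 2 * j := by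
          rw [hJ, hJ']
          push_cast
          ring
        rw [h9]
        have h10 : (16 : ℝ) * b ^ 2 * j * ((1 / 2) ^ j * 3) = (96 * b ^ 2 * j) * (1 / 2) ^ j / 2 := by ring
        rw [h10]
        have h11 : (96 : ℝ) * b ^ 2 * j * (1 / 2) ^ j ≤ 2 ^ j * (1 / 2) ^ j :=
          mul_le_mul_of_nonneg_right h8 (by positivity)
        have h12 : (2 : ℝ) ^ j * (1 / 2) ^ j = 1 := by rw [← mul_pow]; norm_num
        linarith

/-- the exponential sum of a linear function over all blocks -/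
lemma lin_bound (b m q : ℕ) (p : ℕ → ℕ) (β : ℝ) : ∀ k : ℕ,
    ‖∑ i ∈ II m q k, e (β * zz b p k i)‖ ≤ (2 ^ m * 2 ^ (q * k)) * Phi b m β := by
  intro k
  induction k with
  | zero =>
    show ‖∑ A ∈ (range m).powerset, e (β * (XA b A : ℕ))‖ ≤ _
    rw [norm_sum_e_XA, mul_zero, pow_zero, mul_one]
  | succ k ih =>
    have e1 : ∑ i ∈ II m q (k + 1), e (β * zz b p (k + 1) i) =
        ∑ x ∈ (range q).powerset, e (β * (b ^ p k * XA b x : ℕ)) * ∑ i ∈ II m q k, e (β * zz b p k i) := by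
      show ∑ i ∈ II m q k ×ˢ (range q).powerset, e (β * ((zz b p k i.1 + b ^ p k * XA b i.2 : ℕ) : ℝ)) = _
      rw [sum_product_right]
      apply sum_congr rfl
      intro x _
      rw [mul_sum]
      apply sum_congr rfl
      intro i _
      rw [← e_add]
      congr 1
      push_cast
      ring
    rw [e1]
    refine (norm_sum_le _ _).trans ?_
    have h2 : ∀ x ∈ (range q).powerset, ‖e (β * (b ^ p k * XA b x : ℕ)) * ∑ i ∈ II m q k, e (β * zz b p k i)‖ ≤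
        (2 ^ m * 2 ^ (q * k)) * Phi b m β := by
      intro x _
      rw [norm_mul, norm_e, one_mul]
      exact ih
    refine (sum_le_sum h2).trans (le_of_eq ?_)
    rw [sum_const, card_powerset, card_range, nsmul_eq_mul, Nat.mul_succ, pow_add]
    push_cast
    ring

/-- **Either a good zero-one integer divisible by `Q`, or a large exponential sum.** -/
lemma good_or_large (b T j m q k : ℕ) (hb : 2 ≤ b) (p : ℕ → ℕ) (P : ℕ) (Q : ℕ) (hQ : 1 ≤ Q)
    (hcop : Nat.Coprime Q b) (hQT : Q ≤ b ^ T) (hj1 : b * (T + 1) ≤ 2 ^ j) (hj2 : 96 * b ^ 2 * j ≤ 2 ^ j)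
    (hj3 : 1 ≤ j) (hm : 16 * b ^ 2 * j * (T + 1) ≤ m) (f : ℝ → ℝ) :
    (∃ i ∈ II m q k, Q ∣ zz b p k i + b ^ P ∧ nd (f ((zz b p k i : ℝ) + (b : ℝ) ^ P)) < 1 / (b : ℝ) ^ T) ∨
    ∃ h : ℕ, 1 ≤ h ∧ h ≤ 3 * b ^ (2 * T) ∧ ∃ a ∈ range Q,
      1 / (12 * (b : ℝ) ^ (3 * T)) ≤ av b m q p k
        (fun y => h * f (y + (b : ℝ) ^ P) + (a : ℝ) / Q * (y + (b : ℝ) ^ P)) := by
  classical
  by_cases hgood : ∃ i ∈ II m q k, Q ∣ zz b p k i + b ^ P ∧
      nd (f ((zz b p k i : ℝ) + (b : ℝ) ^ P)) < 1 / (b : ℝ) ^ T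
  · left
    exact hgood
  right
  push Not at hgood
  have hQ0 : (0 : ℝ) < Q := by exact_mod_cast hQ
  have hb0 : (0 : ℝ) < b := by positivity
  obtain ⟨M, hM⟩ : ∃ M : ℝ, M = 2 ^ m * 2 ^ (q * k) := ⟨_, rfl⟩
  have hM0 : 0 < M := by rw [hM]; positivity
  have hcard : ((II m q k).card : ℝ) = M := by
    rw [card_II, hM]
    push_cast
    rfl
  obtain ⟨x, hx⟩ : ∃ x : Idx k → ℕ, x = fun i => zz b p k i + b ^ P := ⟨_, rfl⟩
  have hxc : ∀ i, ((x i : ℕ) : ℝ) = (zz b p k i : ℝ) + (b : ℝ) ^ P := by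
    intro i
    rw [hx]
    push_cast
    rfl
  obtain ⟨S, hS⟩ : ∃ S : Finset (Idx k), ∀ i, i ∈ S ↔ i ∈ II m q k ∧ Q ∣ x i := by
    refine ⟨(II m q k).filter (fun i => Q ∣ x i), fun i => ?_⟩
    rw [mem_filter]
  have hSsum : ∀ G : Idx k → ℂ, (Q : ℂ) * ∑ i ∈ S, G i =
      ∑ a ∈ range Q, ∑ i ∈ II m q k, G i * e ((a : ℝ) * ((x i : ℝ) / Q)) := by
    intro G
    have hSf : S = (II m q k).filter (fun i => Q ∣ x i) := by
      ext i
      rw [hS, mem_filter]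
    rw [sum_comm, hSf, sum_filter, mul_sum]
    apply sum_congr rfl
    intro i _
    rw [← mul_sum, orth Q (x i) hQ]
    split_ifs
    · ring
    · simp
  -- the number of elements of `S`
  have hScard : M / 2 ≤ Q * S.card := by
    have h1 := hSsum (fun _ => 1)
    have h2 : (0 : ℕ) ∈ range Q := mem_range.2 (by omega)
    rw [← add_sum_erase (range Q) _ h2] at h1
    have h3 : ∑ i ∈ II m q k, (1 : ℂ) * e (((0 : ℕ) : ℝ) * ((x i : ℝ) / Q)) = (II m q k).card := by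
      simp [e_zero]
    rw [h3] at h1
    have h4 : ‖∑ a ∈ (range Q).erase 0, ∑ i ∈ II m q k, (1 : ℂ) * e ((a : ℝ) * ((x i : ℝ) / Q))‖ ≤ M * (1 / 2) := by
      refine (norm_sum_le _ _).trans ?_
      have h5 : ∀ a ∈ (range Q).erase 0, ‖∑ i ∈ II m q k, (1 : ℂ) * e ((a : ℝ) * ((x i : ℝ) / Q))‖ ≤
          M * Phi b m ((a : ℝ) / Q) := by
        intro a _
        have h6 : ∑ i ∈ II m q k, (1 : ℂ) * e ((a : ℝ) * ((x i : ℝ) / Q)) =
            e ((a : ℝ) / Q * (b : ℝ) ^ P) * ∑ i ∈ II m q k, e ((a : ℝ) / Q * zz b p k i) := by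
          rw [mul_sum]
          apply sum_congr rfl
          intro i _
          rw [one_mul, ← e_add, hxc]
          congr 1
          ring
        rw [h6, norm_mul, norm_e, one_mul, hM]
        exact lin_bound b m q p _ k
      refine (sum_le_sum h5).trans ?_
      rw [← mul_sum]
      exact mul_le_mul_of_nonneg_left (sum_Phi_half b Q T j m hb hQ hcop hQT hj1 hj2 hj3 hm) hM0.le
    have h7 : (Q : ℝ) * S.card = M + (∑ a ∈ (range Q).erase 0, ∑ i ∈ II m q k,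
        (1 : ℂ) * e ((a : ℝ) * ((x i : ℝ) / Q))).re := by
      have h8 := congrArg Complex.re h1
      rw [Complex.add_re] at h8
      have h9 : ((Q : ℂ) * ∑ i ∈ S, (1 : ℂ)).re = Q * S.card := by
        rw [sum_const, nsmul_eq_mul, mul_one]
        norm_cast
      rw [h9, Complex.natCast_re, hcard] at h8
      exact h8
    have h10 := (abs_le.1 ((Complex.abs_re_le_norm _).trans h4)).1
    rw [h7]
    linarith
  have hSne : S.Nonempty := by
    rw [← card_pos]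
    by_contra hcon
    have h1 : S.card = 0 := by omega
    rw [h1] at hScard
    push_cast at hScard
    linarith
  obtain ⟨n, hn⟩ : ∃ n, n = b ^ (2 * T) := ⟨_, rfl⟩
  have hn1 : 1 ≤ n := by rw [hn]; exact Nat.one_le_pow _ _ (by omega)
  have hn0 : (0 : ℝ) < n := by exact_mod_cast hn1
  obtain ⟨h, hh1, hh2, hsum⟩ := fourier S (fun i => f ((zz b p k i : ℝ) + (b : ℝ) ^ P)) hSne
    (1 / (b : ℝ) ^ T) (by positivity)
    (fun i hi => hgood i ((hS i).1 hi).1 (by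
      have := ((hS i).1 hi).2
      rw [hx] at this
      exact this))
    n hn1 (by rw [hn]; exact fourier_cond b T hb)
  refine ⟨h, hh1, by rw [← hn]; exact hh2, ?_⟩
  by_contra hcon
  push Not at hcon
  have h1 := hSsum (fun i => e (h * f ((zz b p k i : ℝ) + (b : ℝ) ^ P)))
  have h2 : ∀ a ∈ range Q, ‖∑ i ∈ II m q k, e (h * f ((zz b p k i : ℝ) + (b : ℝ) ^ P)) *
      e ((a : ℝ) * ((x i : ℝ) / Q))‖ < M * (1 / (12 * (b : ℝ) ^ (3 * T))) := by
    intro a ha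
    have h3 := hcon a ha
    unfold av at h3
    rw [← hM, div_lt_iff₀ hM0] at h3
    rw [mul_comm]
    refine lt_of_le_of_lt (le_of_eq ?_) h3
    congr 1
    apply sum_congr rfl
    intro i _
    rw [← e_add, hxc]
    congr 1
    ring
  have h3 : ‖(Q : ℂ) * ∑ i ∈ S, e (h * f ((zz b p k i : ℝ) + (b : ℝ) ^ P))‖ < Q * (M * (1 / (12 * (b : ℝ) ^ (3 * T)))) := by
    rw [h1]
    refine lt_of_le_of_lt (norm_sum_le _ _) ?_
    refine lt_of_lt_of_le (sum_lt_sum_of_nonempty ⟨0, mem_range.2 (by omega)⟩ h2) (le_of_eq ?_)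
    rw [sum_const, card_range, nsmul_eq_mul]
  rw [norm_mul, Complex.norm_natCast] at h3
  have h4 := lt_of_mul_lt_mul_left h3 hQ0.le
  have h5 : (S.card : ℝ) / (6 * n) < M * (1 / (12 * (b : ℝ) ^ (3 * T))) := lt_of_le_of_lt hsum h4
  rw [div_lt_iff₀ (by positivity)] at h5
  have h6 : (Q : ℝ) * n ≤ (b : ℝ) ^ (3 * T) := by
    have h7 : Q * n ≤ b ^ (3 * T) := by
      calc Q * n ≤ b ^ T * b ^ (2 * T) := by rw [hn]; exact Nat.mul_le_mul_right _ hQT
        _ = b ^ (3 * T) := by rw [← pow_add]; congr 1; ring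
    exact_mod_cast h7
  have h8 : (Q : ℝ) * S.card < Q * (M * (1 / (12 * (b : ℝ) ^ (3 * T))) * (6 * n)) :=
    mul_lt_mul_of_pos_left h5 hQ0
  have h9 : (Q : ℝ) * (M * (1 / (12 * (b : ℝ) ^ (3 * T))) * (6 * n)) = (Q * n) / (b : ℝ) ^ (3 * T) * (M / 2) := by
    field_simp
    ring
  have h10 : (Q * n : ℝ) / (b : ℝ) ^ (3 * T) ≤ 1 := by
    rw [div_le_one (by positivity)]
    exact h6
  have h11 : (Q * n : ℝ) / (b : ℝ) ^ (3 * T) * (M / 2) ≤ 1 * (M / 2) :=
    mul_le_mul_of_nonneg_right h10 (by positivity)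
  linarith

/-- the part of `Q` which is coprime to `b` -/
lemma coprime_part (b Q R : ℕ) (hQ : 1 ≤ Q) (hQR : Q ≤ b ^ R) :
    ∃ Q' : ℕ, 1 ≤ Q' ∧ Q' ≤ Q ∧ Nat.Coprime Q' b ∧ ∀ x : ℕ, Q' ∣ x → Q ∣ b ^ (b * R) * x := by
  obtain ⟨c, hc⟩ : ∃ c : ℕ, c = b * R := ⟨_, rfl⟩
  obtain ⟨g, hg⟩ : ∃ g : ℕ, g = Nat.gcd Q (b ^ c) := ⟨_, rfl⟩
  have hg1 : 1 ≤ g := by rw [hg]; exact Nat.gcd_pos_of_pos_left _ hQ
  obtain ⟨Q', hQ'⟩ : g ∣ Q := by rw [hg]; exact Nat.gcd_dvd_left _ _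
  have hQ'1 : 1 ≤ Q' := by
    rcases Nat.eq_zero_or_pos Q' with h | h
    · rw [h, mul_zero] at hQ'
      omega
    · exact h
  have hQ'Q : Q' ≤ Q := by rw [hQ']; exact Nat.le_mul_of_pos_left _ hg1
  have hQc : Q ≤ 2 ^ c := by
    rw [hc, pow_mul]
    exact hQR.trans (Nat.pow_le_pow_left (Nat.lt_pow_self (by norm_num)).le R)
  have hcop : Nat.Coprime Q' b := by
    rw [Nat.coprime_iff_gcd_eq_one]
    by_contra hne
    obtain ⟨p, hp, hpd⟩ := Nat.exists_prime_and_dvd hne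
    have hp1 : p ∣ Q' := hpd.trans (Nat.gcd_dvd_left _ _)
    have hp2 : p ∣ b := hpd.trans (Nat.gcd_dvd_right _ _)
    have hQ0 : Q ≠ 0 := by omega
    have hv : p ^ (Q.factorization p) ∣ b ^ c := by
      have h1 : Q.factorization p ≤ c := by
        have h2 : p ^ (Q.factorization p) ≤ Q := Nat.ordProj_le p hQ0
        by_contra hlt
        push Not at hlt
        have h3 : 2 ^ c < 2 ^ (Q.factorization p) := Nat.pow_lt_pow_right (by norm_num) hlt
        have h4 : 2 ^ (Q.factorization p) ≤ p ^ (Q.factorization p) := Nat.pow_le_pow_left hp.two_le _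
        omega
      exact (pow_dvd_pow p h1).trans (pow_dvd_pow_of_dvd hp2 c)
    have hvg : p ^ (Q.factorization p) ∣ g := by
      rw [hg]
      exact Nat.dvd_gcd (Nat.ordProj_dvd Q p) hv
    have h5 : p ^ (Q.factorization p + 1) ∣ Q := by
      rw [pow_succ, hQ']
      exact mul_dvd_mul (by rw [← hQ']; exact hvg) hp1
    exact Nat.pow_succ_factorization_not_dvd hQ0 hp h5
  refine ⟨Q', hQ'1, hQ'Q, hcop, ?_⟩
  intro x hx
  rw [← hc, hQ']
  exact mul_dvd_mul (by rw [hg]; exact Nat.gcd_dvd_right _ _) hx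

end Pool.Agent.H56.HS
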