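import Pool.Agent.H56.HS.Core

/-!
# From the discrete bound to the rate
-/

set_option autoImplicit false

namespace Pool.Agent.H56.HS

open Finset Pool.Agent.W10.HS

/-- a constant depending on `b` only -/
def K1 (b : ℕ) : ℕ := 3 + 2 * b + 64 * b ^ 2 * (22 + 4 * b)

/-- a constant depending on `b` only -/
def KK (b : ℕ) : ℕ := 6 * ((3 * JJ b * K1 b + 2) * (80 * b))

lemma KK_pos {b : ℕ} (hb : 2 ≤ b) : 1 ≤ KK b := by
  unfold KK
  exact Nat.one_le_iff_ne_zero.2 (by positivity)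

lemma le_two_pow_clog (t : ℕ) : t ≤ 2 ^ Nat.clog 2 t := Nat.le_pow_clog (by norm_num) t

lemma cond1 (b t : ℕ) (hb : 2 ≤ b) (ht : 1 ≤ t) :
    b * (ww b t + 1) ≤ 2 ^ (20 + 4 * b + 2 * Nat.clog 2 t) := by
  obtain ⟨l, hl⟩ : ∃ l, l = Nat.clog 2 t := ⟨_, rfl⟩
  have h1 : t ≤ 2 ^ l := by rw [hl]; exact le_two_pow_clog t
  have h2 : b ≤ 2 ^ b := Nat.lt_two_pow_self.le
  rw [← hl]
  have h3 : ww b t + 1 ≤ 128 * (b * t) := by
    unfold ww
    have : 2 * 1 ≤ b * t := Nat.mul_le_mul hb ht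
    omega
  calc b * (ww b t + 1) ≤ b * (128 * (b * t)) := Nat.mul_le_mul_left _ h3
    _ ≤ 2 ^ b * (128 * (2 ^ b * 2 ^ l)) :=
        Nat.mul_le_mul h2 (Nat.mul_le_mul_left _ (Nat.mul_le_mul h2 h1))
    _ = 2 ^ (7 + 2 * b + l) := by
        rw [pow_add, pow_add, two_mul, pow_add]
        ring
    _ ≤ 2 ^ (20 + 4 * b + 2 * l) := Nat.pow_le_pow_right (by norm_num) (by omega)

lemma cond2 (b l : ℕ) : 96 * b ^ 2 * (20 + 4 * b + 2 * l) ≤ 2 ^ (20 + 4 * b + 2 * l) := by
  have h2 : b ≤ 2 ^ b := Nat.lt_two_pow_self.le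
  have h3 : 20 + 4 * b + 2 * l ≤ 4 * 2 ^ (b + l + 5) := by
    have : b + l + 5 < 2 ^ (b + l + 5) := Nat.lt_two_pow_self
    omega
  calc 96 * b ^ 2 * (20 + 4 * b + 2 * l) ≤ 128 * (2 ^ b) ^ 2 * (4 * 2 ^ (b + l + 5)) :=
        Nat.mul_le_mul (Nat.mul_le_mul (by norm_num) (Nat.pow_le_pow_left h2 2)) h3
    _ = 2 ^ (14 + 3 * b + l) := by
        rw [← pow_mul, show 14 + 3 * b + l = 7 + (b * 2) + (2 + (b + l + 5)) by ring, pow_add 2 (7 + b * 2),
          pow_add 2 7, pow_add 2 2]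
        norm_num
    _ ≤ 2 ^ (20 + 4 * b + 2 * l) := Nat.pow_le_pow_right (by norm_num) (by omega)

lemma mm_le (b t l : ℕ) (hb : 2 ≤ b) (ht : 1 ≤ t) :
    6 * mm b t (20 + 4 * b + 2 * l) ≤ KK b * (t * (1 + l)) := by
  have h1 : rr b (20 + 4 * b + 2 * l) + 1 ≤ K1 b * (1 + l) := by
    unfold rr K1
    have e1 : 20 + 4 * b + 2 * l ≤ (22 + 4 * b) * (1 + l) := by nlinarith [Nat.zero_le (b * l)]
    calc 2 + 2 * b + 64 * b ^ 2 * (20 + 4 * b + 2 * l) + 1 ≤
          3 * (1 + l) + 2 * b * (1 + l) + 64 * b ^ 2 * ((22 + 4 * b) * (1 + l)) := by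
          have e2 := Nat.mul_le_mul_left (64 * b ^ 2) e1
          have e3 : 2 * b * 1 ≤ 2 * b * (1 + l) := Nat.mul_le_mul_left _ (by omega)
          omega
      _ = (3 + 2 * b + 64 * b ^ 2 * (22 + 4 * b)) * (1 + l) := by ring
  have h2 : 3 * JJ b * (rr b (20 + 4 * b + 2 * l) + 1) + 2 ≤ (3 * JJ b * K1 b + 2) * (1 + l) := by
    have e1 := Nat.mul_le_mul_left (3 * JJ b) h1
    calc 3 * JJ b * (rr b (20 + 4 * b + 2 * l) + 1) + 2 ≤ 3 * JJ b * (K1 b * (1 + l)) + 2 * (1 + l) := by omega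
      _ = _ := by ring
  have h3 : ww b t ≤ 80 * b * t := by
    unfold ww
    have : 1 * 1 ≤ b * t := Nat.mul_le_mul (by omega) ht
    calc 16 * (4 + b * t) ≤ 80 * (b * t) := by omega
      _ = 80 * b * t := by ring
  unfold mm KK
  calc 6 * ((3 * JJ b * (rr b (20 + 4 * b + 2 * l) + 1) + 2) * ww b t) ≤
        6 * (((3 * JJ b * K1 b + 2) * (1 + l)) * (80 * b * t)) := Nat.mul_le_mul_left _ (Nat.mul_le_mul h2 h3)
    _ = 6 * ((3 * JJ b * K1 b + 2) * (80 * b)) * (t * (1 + l)) := by ring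

/-- the discrete bound with explicit sizes -/
lemma core_sq' (b : ℕ) (hb : 2 ≤ b) (t : ℕ) (ht : 1 ≤ t) (γ : ℝ) :
    ∃ s ∈ zeroOne b, s ^ 2 ≤ b ^ (KK b * (t * (1 + Nat.clog 2 t))) ∧ nd ((s : ℝ) ^ 2 * γ) ≤ 1 / (b : ℝ) ^ t := by
  obtain ⟨s, hs, hs2, hs3⟩ := core_sq b hb t (20 + 4 * b + 2 * Nat.clog 2 t) ht (cond1 b t hb ht)
    (cond2 b _) (by omega) γ
  exact ⟨s, hs, hs2.trans (Nat.pow_le_pow_right (by omega) (mm_le b t _ hb ht)), hs3⟩

/-- from the discrete bound to the rate -/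
lemma rate' (b : ℕ) (hb : 2 ≤ b) (K : ℕ) (hK : 1 ≤ K) (D : Set ℕ) (h1 : 1 ∈ D) (f : ℕ → ℝ)
    (hf : f 1 ≤ 1 / 2)
    (hcore : ∀ t : ℕ, 1 ≤ t → ∃ n ∈ D, n ≤ b ^ (K * (t * (1 + Nat.clog 2 t))) ∧
      f n ≤ 1 / (b : ℝ) ^ t) (N : ℕ) (hN : 1 ≤ N) :
    ∃ n ∈ D, n ≤ N ∧ f n ≤
      b * Real.exp (-(Real.log N / (8 * K * b * Real.log (3 + Real.log N)))) := by
  have hb2 : (2 : ℝ) ≤ b := by exact_mod_cast hb
  have hb0 : (0 : ℝ) < b := by linarith
  have hK1 : (1 : ℝ) ≤ K := by exact_mod_cast hK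
  have hK0 : (0 : ℝ) < K := by linarith
  have hN0 : (0 : ℝ) < N := by exact_mod_cast hN
  obtain ⟨x, hx⟩ : ∃ x, x = Real.log N := ⟨_, rfl⟩
  rw [← hx]
  have hx0 : 0 ≤ x := by rw [hx]; exact Real.log_natCast_nonneg N
  obtain ⟨L, hL⟩ : ∃ L, L = Real.log (3 + x) := ⟨_, rfl⟩
  rw [← hL]
  have hL1 : 1 ≤ L := by
    rw [hL, Real.le_log_iff_exp_le (by linarith)]
    have := Real.exp_one_lt_d9
    linarith
  have hL0 : 0 < L := by linarith
  obtain ⟨y, hy⟩ : ∃ y, y = x / (4 * K * b * L) := ⟨_, rfl⟩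
  have hy0 : 0 ≤ y := by rw [hy]; positivity
  have hexp : x / (8 * K * b * L) = y / 2 := by
    rw [hy]
    field_simp
    ring
  rw [hexp]
  have hlog2 : 1 / 2 ≤ Real.log 2 := by
    have := Real.log_two_gt_d9
    linarith
  have hlogb : Real.log 2 ≤ Real.log b := Real.log_le_log (by norm_num) hb2
  have hlogbb : Real.log b ≤ b := (Real.log_le_sub_one_of_pos hb0).trans (by linarith)
  obtain ⟨t, ht⟩ : ∃ t, t = ⌊y⌋₊ := ⟨_, rfl⟩
  have ht1 : (t : ℝ) ≤ y := by rw [ht]; exact Nat.floor_le hy0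
  have ht2 : y < t + 1 := by rw [ht]; exact Nat.lt_floor_add_one y
  rcases Nat.eq_zero_or_pos t with h0 | hpos
  · refine ⟨1, h1, hN, hf.trans ?_⟩
    rw [h0] at ht2
    push_cast at ht2
    have h2 : 1 / 2 ≤ Real.exp (-(y / 2)) := by
      have := Real.add_one_le_exp (-(y / 2))
      linarith
    nlinarith [mul_le_mul hb2 h2 (by norm_num) hb0.le]
  · obtain ⟨n, hn, hn2, hn3⟩ := hcore t hpos
    refine ⟨n, hn, hn2.trans ?_, hn3.trans ?_⟩
    · -- the size
      obtain ⟨l, hl⟩ : ∃ l, l = Nat.clog 2 t := ⟨_, rfl⟩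
      rw [← hl]
      have htpos : (1 : ℝ) ≤ t := by exact_mod_cast hpos
      have hl2 : (2 : ℝ) ^ l ≤ 2 * t := by
        have : 2 ^ l ≤ 2 * t := by
          rcases Nat.lt_or_ge 1 t with h3 | h3
          · have h4 := Nat.pow_pred_clog_lt_self (b := 2) (by norm_num) h3
            rw [← hl] at h4
            have h5 : 1 ≤ l := by
              rw [hl]
              exact Nat.clog_pos (by norm_num) h3
            obtain ⟨l', rfl⟩ : ∃ l', l = l' + 1 := ⟨l - 1, by omega⟩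
            rw [Nat.pred_succ] at h4
            rw [pow_succ]
            omega
          · have h5 : t = 1 := by omega
            rw [h5] at hl
            have h6 : l = 0 := by rw [hl]; simp
            rw [h6, h5]
            norm_num
        exact_mod_cast this
      have htx : (t : ℝ) ≤ 3 + x := by
        have h3 : y ≤ x := by
          rw [hy]
          apply div_le_self hx0
          have e1 : (1 : ℝ) ≤ K * b := by nlinarith
          have e2 : (1 : ℝ) ≤ K * b * L := by nlinarith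
          linarith
        linarith
      have hll : (l : ℝ) * Real.log 2 ≤ Real.log 2 + L := by
        have h3 := Real.log_le_log (by positivity) hl2
        rw [Real.log_pow, Real.log_mul (by norm_num) (by linarith)] at h3
        have h4 : Real.log t ≤ L := by
          rw [hL]
          exact Real.log_le_log (by linarith) htx
        linarith
      have h1l : 1 + (l : ℝ) ≤ 4 * L := by
        have h3 : (l : ℝ) ≤ 1 + 2 * L := by
          have h5 : ((l : ℝ) - 1) * Real.log 2 ≤ L := by linarith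
          by_contra hcon
          push Not at hcon
          have h6 : 2 * L * (1 / 2) < ((l : ℝ) - 1) * Real.log 2 := by
            calc 2 * L * (1 / 2) ≤ 2 * L * Real.log 2 := mul_le_mul_of_nonneg_left hlog2 (by linarith)
              _ < ((l : ℝ) - 1) * Real.log 2 := mul_lt_mul_of_pos_right (by linarith) (by linarith)
          linarith
        linarith
      have hlog : Real.log ((b : ℝ) ^ (K * (t * (1 + l)))) ≤ Real.log N := by
        rw [Real.log_pow, ← hx]
        push_cast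
        have h3 : (t : ℝ) * (4 * K * b * L) ≤ x := by
          rw [hy] at ht1
          rwa [le_div_iff₀ (by positivity)] at ht1
        have hlb0 : 0 ≤ Real.log b := by linarith
        calc (K : ℝ) * (t * (1 + l)) * Real.log b ≤ K * (t * (4 * L)) * b := by
              apply mul_le_mul _ hlogbb hlb0 (by positivity)
              apply mul_le_mul_of_nonneg_left _ hK0.le
              exact mul_le_mul_of_nonneg_left h1l (by linarith)
          _ = (t : ℝ) * (4 * K * b * L) := by ring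
          _ ≤ x := h3
      have h7 : (b : ℝ) ^ (K * (t * (1 + l))) ≤ N := (Real.log_le_log_iff (by positivity) hN0).1 hlog
      exact_mod_cast h7
    · have h13 : Real.exp (-(((t + 1 : ℕ) : ℝ) * Real.log b)) = 1 / (b : ℝ) ^ (t + 1) := by
        rw [Real.exp_neg, one_div, Real.exp_nat_mul, Real.exp_log hb0]
      calc 1 / (b : ℝ) ^ t = b * (1 / (b : ℝ) ^ (t + 1)) := by
            rw [pow_succ]
            field_simp
        _ = b * Real.exp (-(((t + 1 : ℕ) : ℝ) * Real.log b)) := by rw [h13]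
        _ ≤ b * Real.exp (-(y / 2)) := by
            apply mul_le_mul_of_nonneg_left _ hb0.le
            apply Real.exp_le_exp.mpr
            push_cast
            have h3 : (1 / 2 : ℝ) ≤ Real.log b := by linarith
            have h4 : ((t : ℝ) + 1) * (1 / 2) ≤ ((t : ℝ) + 1) * Real.log b :=
              mul_le_mul_of_nonneg_left h3 (by positivity)
            linarith

end Pool.Agent.H56.HS
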