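import Pool.Agent.H56.HS.CorePow
import Pool.Agent.H56.HS.Rate

/-!
# All powers: sizes
-/

set_option autoImplicit false

namespace Pool.Agent.H56.HS

open Finset Pool.Agent.W10.HS

/-- constants which depend on `b` and `k` only -/
def KX (b k : ℕ) : ℕ := C2 k * (V0 b k + b)
def KC (b k : ℕ) : ℕ := 20 + 4 * b + 2 * b * KX b k
def KR (b k : ℕ) : ℕ := 3 + (k + 2) * b + 32 * (k + 2) * b ^ 2 * (KC b k + 2)
def KP (b k : ℕ) : ℕ := (k + 2) * (2 * k + 5) * ((3 * PJ b k * KR b k + 2) * KX b k)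

lemma KX_pos {b : ℕ} (hb : 2 ≤ b) (k : ℕ) : 1 ≤ KX b k := by
  unfold KX
  have := C2_ge k
  exact Nat.mul_pos (by omega) (by omega)

lemma KP_pos {b : ℕ} (hb : 2 ≤ b) (k : ℕ) : 1 ≤ KP b k := by
  unfold KP
  exact Nat.mul_pos (by positivity) (Nat.mul_pos (by omega) (KX_pos hb k))

lemma cond2' (b j : ℕ) (hj : 20 + 4 * b ≤ j) : 96 * b ^ 2 * j ≤ 2 ^ j := by
  obtain ⟨y, rfl⟩ : ∃ y, j = y + 1 + 7 + 2 * b := ⟨j - 8 - 2 * b, by omega⟩
  have h2 : b ≤ 2 ^ b := Nat.lt_two_pow_self.le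
  have h3 : y + 1 + 7 + 2 * b ≤ 2 * 2 ^ y := by
    have : y < 2 ^ y := Nat.lt_two_pow_self
    omega
  calc 96 * b ^ 2 * (y + 1 + 7 + 2 * b) ≤ 128 * (2 ^ b) ^ 2 * (2 * 2 ^ y) :=
        Nat.mul_le_mul (Nat.mul_le_mul (by norm_num) (Nat.pow_le_pow_left h2 2)) h3
    _ = 2 ^ (y + 1 + 7 + 2 * b) := by
        rw [← pow_mul, mul_comm b 2, pow_add 2 (y + 1 + 7), pow_add 2 (y + 1) 7, pow_add 2 y 1]
        ring

lemma pw_le (b k t : ℕ) (ht : 1 ≤ t) : pw b k t ≤ KX b k * t := by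
  unfold pw KX vv
  have h1 : V0 b k + b * t ≤ (V0 b k + b) * t := by
    rw [add_mul]
    exact Nat.add_le_add_right (Nat.le_mul_of_pos_right _ ht) _
  calc C2 k * (V0 b k + b * t) ≤ C2 k * ((V0 b k + b) * t) := Nat.mul_le_mul_left _ h1
    _ = _ := by ring

lemma pcond1 (b k t : ℕ) (hb : 2 ≤ b) (ht : 1 ≤ t) :
    b * (pw b k t + 1) ≤ 2 ^ (2 * Nat.clog 2 t + KC b k) := by
  have h1 : t ≤ 2 ^ Nat.clog 2 t := le_two_pow_clog t
  obtain ⟨l, hl⟩ : ∃ l, l = Nat.clog 2 t := ⟨_, rfl⟩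
  rw [← hl] at h1 ⊢
  have h2 := pw_le b k t ht
  have h3 : 1 ≤ KX b k * t := Nat.mul_pos (KX_pos hb k) ht
  calc b * (pw b k t + 1) ≤ b * (2 * (KX b k * t)) := Nat.mul_le_mul_left _ (by omega)
    _ = (2 * b * KX b k) * t := by ring
    _ ≤ 2 ^ (2 * b * KX b k) * 2 ^ l := Nat.mul_le_mul Nat.lt_two_pow_self.le h1
    _ = 2 ^ (2 * b * KX b k + l) := (pow_add _ _ _).symm
    _ ≤ 2 ^ (2 * l + KC b k) := by
        apply Nat.pow_le_pow_right (by norm_num)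
        unfold KC
        omega

lemma pm_le (b k t l : ℕ) (ht : 1 ≤ t) :
    (k + 2) * (2 * k + 5) * pm b k t (2 * l + KC b k) ≤ KP b k * (t * (1 + l)) := by
  have h1 : pr b k (2 * l + KC b k) + 1 ≤ KR b k * (1 + l) := by
    unfold pr KR
    have e1 : 2 * l + KC b k ≤ (KC b k + 2) * (1 + l) := by nlinarith [Nat.zero_le (KC b k * l)]
    have e2 := Nat.mul_le_mul_left (32 * (k + 2) * b ^ 2) e1
    have e3 : (k + 2) * b * 1 ≤ (k + 2) * b * (1 + l) := Nat.mul_le_mul_left _ (by omega)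
    calc 2 + (k + 2) * b + 32 * (k + 2) * b ^ 2 * (2 * l + KC b k) + 1 ≤
          3 * (1 + l) + (k + 2) * b * (1 + l) + 32 * (k + 2) * b ^ 2 * ((KC b k + 2) * (1 + l)) := by omega
      _ = _ := by ring
  have h2 : 3 * PJ b k * (pr b k (2 * l + KC b k) + 1) + 2 ≤ (3 * PJ b k * KR b k + 2) * (1 + l) := by
    have e1 := Nat.mul_le_mul_left (3 * PJ b k) h1
    calc 3 * PJ b k * (pr b k (2 * l + KC b k) + 1) + 2 ≤ 3 * PJ b k * (KR b k * (1 + l)) + 2 * (1 + l) := by omega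
      _ = _ := by ring
  unfold pm KP
  calc (k + 2) * (2 * k + 5) * ((3 * PJ b k * (pr b k (2 * l + KC b k) + 1) + 2) * pw b k t) ≤
        (k + 2) * (2 * k + 5) * (((3 * PJ b k * KR b k + 2) * (1 + l)) * (KX b k * t)) :=
        Nat.mul_le_mul_left _ (Nat.mul_le_mul h2 (pw_le b k t ht))
    _ = (k + 2) * (2 * k + 5) * ((3 * PJ b k * KR b k + 2) * KX b k) * (t * (1 + l)) := by ring

/-- the discrete bound with explicit sizes -/
lemma core_pow' (b : ℕ) (hb : 2 ≤ b) (k t : ℕ) (ht : 1 ≤ t) (γ : ℝ) :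
    ∃ s ∈ zeroOne b, s ^ (k + 2) ≤ b ^ (KP b k * (t * (1 + Nat.clog 2 t))) ∧
      nd ((s : ℝ) ^ (k + 2) * γ) ≤ 1 / (b : ℝ) ^ t := by
  obtain ⟨s, hs, hs2, hs3⟩ := core_pow b hb k t (2 * Nat.clog 2 t + KC b k) (pcond1 b k t hb ht)
    (cond2' b _ (by unfold KC; omega)) (by unfold KC; omega) γ
  exact ⟨s, hs, hs2.trans (Nat.pow_le_pow_right (by omega) (pm_le b k t _ ht)), hs3⟩

end Pool.Agent.H56.HS
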