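import Pool.Agent.H56.HS.Core

/-!
# Repeated differencing over blocks of digits
-/

set_option autoImplicit false

namespace Pool.Agent.H56.HS

open Finset Pool.Agent.W10.HS

/-- `f` behaves like a polynomial of degree at most `k` with coefficient `c` at `y ^ k`. -/
def IsPol : ℕ → ℝ → (ℝ → ℝ) → Prop
  | 0, c, f => ∀ y, f y = c
  | k + 1, c, f => ∀ a a' : ℝ, IsPol k ((k + 1 : ℕ) * c * (a - a')) (fun y => f (y + a) - f (y + a'))

lemma isPol_poly : ∀ (k : ℕ) (P : Polynomial ℝ), P.natDegree ≤ k → IsPol k (P.coeff k) (fun y => P.eval y) := by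
  intro k
  induction k with
  | zero =>
    intro P hP y
    rw [Polynomial.eq_C_of_natDegree_le_zero hP]
    simp
  | succ k ih =>
    intro P hP a a'
    have hder : ∀ r : ℝ, (Polynomial.taylor r P).coeff k = P.coeff k + (k + 1 : ℕ) * P.coeff (k + 1) * r := by
      intro r
      rw [Polynomial.taylor_coeff]
      have h1 : (Polynomial.hasseDeriv k P).natDegree < 2 := by
        have := Polynomial.natDegree_hasseDeriv_le P k
        omega
      rw [Polynomial.eval_eq_sum_range' h1, sum_range_succ, sum_range_one, Polynomial.hasseDeriv_coeff,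
        Polynomial.hasseDeriv_coeff]
      simp only [zero_add, Nat.choose_self, Nat.cast_one, one_mul, pow_zero, mul_one, pow_one]
      rw [show 1 + k = k + 1 by ring, Nat.choose_succ_self_right]
    have htop : ∀ r : ℝ, (Polynomial.taylor r P).coeff (k + 1) = P.coeff (k + 1) := by
      intro r
      rw [Polynomial.taylor_coeff]
      have h1 : (Polynomial.hasseDeriv (k + 1) P).natDegree < 1 := by
        have := Polynomial.natDegree_hasseDeriv_le P (k + 1)
        omega
      rw [Polynomial.eval_eq_sum_range' h1, sum_range_one, Polynomial.hasseDeriv_coeff]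
      simp
    obtain ⟨Q, hQ⟩ : ∃ Q : Polynomial ℝ, Q = Polynomial.taylor a P - Polynomial.taylor a' P := ⟨_, rfl⟩
    have hQ1 : Q.natDegree ≤ k := by
      rw [Polynomial.natDegree_le_iff_coeff_eq_zero]
      intro N hN
      rw [hQ, Polynomial.coeff_sub]
      rcases Nat.lt_or_ge (k + 1) N with h | h
      · rw [Polynomial.coeff_eq_zero_of_natDegree_lt (by rw [Polynomial.natDegree_taylor]; omega),
          Polynomial.coeff_eq_zero_of_natDegree_lt (by rw [Polynomial.natDegree_taylor]; omega), sub_zero]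
      · have : N = k + 1 := by omega
        rw [this, htop, htop, sub_self]
    have h := ih Q hQ1
    have hc : Q.coeff k = (k + 1 : ℕ) * P.coeff (k + 1) * (a - a') := by
      rw [hQ, Polynomial.coeff_sub, hder, hder]
      ring
    rw [hc] at h
    refine (congrArg (IsPol k _) ?_).mp h
    funext y
    rw [hQ, Polynomial.eval_sub, Polynomial.taylor_eval, Polynomial.taylor_eval]

/-- index types -/
def Idx : ℕ → Type
  | 0 => Finset ℕ
  | k + 1 => Idx k × Finset ℕ

/-- index sets -/
def II (m q : ℕ) : (k : ℕ) → Finset (Idx k)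
  | 0 => (range m).powerset
  | k + 1 => II m q k ×ˢ (range q).powerset

/-- the integers: a block of `m` digits at the places `0, …, m - 1` and a block of `q` digits at the places
`p i, …, p i + q - 1` for `i < k` -/
def zz (b : ℕ) (p : ℕ → ℕ) : (k : ℕ) → Idx k → ℕ
  | 0, A => XA b A
  | k + 1, i => zz b p k i.1 + b ^ p k * XA b i.2

lemma card_II (m q k : ℕ) : (II m q k).card = 2 ^ m * 2 ^ (q * k) := by
  induction k with
  | zero =>
    show ((range m).powerset).card = _
    rw [card_powerset, card_range, mul_zero, pow_zero, mul_one]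
  | succ k ih =>
    show (II m q k ×ˢ (range q).powerset).card = _
    rw [card_product, ih, card_powerset, card_range, Nat.mul_succ, pow_add]
    ring

/-- one step of differencing -/
lemma diff_step {ι κ : Type} (I : Finset ι) (T : Finset κ) (F : ι → κ → ℝ) :
    ‖∑ i ∈ I, ∑ x ∈ T, e (F i x)‖ ^ 2 ≤ I.card * ∑ x ∈ T, ∑ x' ∈ T, ‖∑ i ∈ I, e (F i x - F i x')‖ := by
  obtain ⟨W, hW⟩ : ∃ W : ι → ℂ, W = fun i => ∑ x ∈ T, e (F i x) := ⟨_, rfl⟩
  have h1 : ‖∑ i ∈ I, W i‖ ^ 2 ≤ I.card * ∑ i ∈ I, ‖W i‖ ^ 2 := by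
    have h2 : ‖∑ i ∈ I, W i‖ ≤ ∑ i ∈ I, ‖W i‖ := norm_sum_le _ _
    have h3 := sq_sum_le_card_mul_sum_sq (s := I) (f := fun i => ‖W i‖)
    exact (pow_le_pow_left₀ (norm_nonneg _) h2 2).trans h3
  have h4 : ∀ i, ((‖W i‖ ^ 2 : ℝ) : ℂ) = ∑ x ∈ T, ∑ x' ∈ T, e (F i x - F i x') := by
    intro i
    push_cast
    rw [← Complex.mul_conj', hW]
    simp only
    rw [map_sum, sum_mul_sum]
    apply sum_congr rfl
    intro x _
    apply sum_congr rfl
    intro x' _
    rw [← e_neg, ← e_add, sub_eq_add_neg]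
  have h5 : ∑ i ∈ I, ‖W i‖ ^ 2 ≤ ∑ x ∈ T, ∑ x' ∈ T, ‖∑ i ∈ I, e (F i x - F i x')‖ := by
    have h6 : ((∑ i ∈ I, ‖W i‖ ^ 2 : ℝ) : ℂ) = ∑ x ∈ T, ∑ x' ∈ T, ∑ i ∈ I, e (F i x - F i x') := by
      rw [Complex.ofReal_sum, sum_congr rfl (fun i _ => h4 i), sum_comm]
      apply sum_congr rfl
      intro x _
      rw [sum_comm]
    have h7 : ∑ i ∈ I, ‖W i‖ ^ 2 = ‖((∑ i ∈ I, ‖W i‖ ^ 2 : ℝ) : ℂ)‖ := by
      rw [Complex.norm_real, Real.norm_of_nonneg]
      exact sum_nonneg fun _ _ => by positivity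
    rw [h7, h6]
    refine (norm_sum_le _ _).trans ?_
    apply sum_le_sum
    intro x _
    exact norm_sum_le _ _
  rw [hW] at h1 h5
  exact h1.trans (mul_le_mul_of_nonneg_left h5 (by positivity))

/-- the average -/
noncomputable def av (b m q : ℕ) (p : ℕ → ℕ) (k : ℕ) (f : ℝ → ℝ) : ℝ :=
  ‖∑ i ∈ II m q k, e (f (zz b p k i))‖ / (2 ^ m * 2 ^ (q * k))

lemma av_nonneg (b m q : ℕ) (p : ℕ → ℕ) (k : ℕ) (f : ℝ → ℝ) : 0 ≤ av b m q p k f := by
  unfold av
  positivity

lemma av_le_one (b m q : ℕ) (p : ℕ → ℕ) (k : ℕ) (f : ℝ → ℝ) : av b m q p k f ≤ 1 := by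
  unfold av
  rw [div_le_one (by positivity)]
  refine (norm_sum_le _ _).trans ?_
  rw [sum_congr rfl (fun i _ => norm_e _), sum_const, card_II, nsmul_eq_mul, mul_one]
  push_cast
  exact le_rfl

lemma av_succ_sq (b m q : ℕ) (p : ℕ → ℕ) (k : ℕ) (f : ℝ → ℝ) :
    av b m q p (k + 1) f ^ 2 ≤ ∑ z ∈ (range q).powerset ×ˢ (range q).powerset, (1 / (2 ^ q * 2 ^ q : ℝ)) *
      av b m q p k (fun y => f (y + (b ^ p k * XA b z.1 : ℕ)) - f (y + (b ^ p k * XA b z.2 : ℕ))) := by
  have h := diff_step (II m q k) (range q).powerset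
    (fun i x => f ((zz b p k i : ℝ) + (b ^ p k * XA b x : ℕ)))
  have e1 : ∑ i ∈ II m q (k + 1), e (f (zz b p (k + 1) i)) =
      ∑ i ∈ II m q k, ∑ x ∈ (range q).powerset, e (f ((zz b p k i : ℝ) + (b ^ p k * XA b x : ℕ))) := by
    show ∑ i ∈ II m q k ×ˢ (range q).powerset, e (f ((zz b p k i.1 + b ^ p k * XA b i.2 : ℕ) : ℝ)) = _
    rw [sum_product]
    apply sum_congr rfl
    intro i _
    apply sum_congr rfl
    intro x _
    congr 2
    exact Nat.cast_add _ _
  have e2 : av b m q p (k + 1) f ^ 2 = ‖∑ i ∈ II m q k, ∑ x ∈ (range q).powerset,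
      e (f ((zz b p k i : ℝ) + (b ^ p k * XA b x : ℕ)))‖ ^ 2 / (2 ^ m * 2 ^ (q * (k + 1))) ^ 2 := by
    unfold av
    rw [e1, div_pow]
  rw [e2, div_le_iff₀ (by positivity), sum_product]
  refine h.trans (le_of_eq ?_)
  rw [card_II]
  rw [sum_mul, mul_sum]
  apply sum_congr rfl
  intro x _
  rw [sum_mul, mul_sum]
  apply sum_congr rfl
  intro x' _
  unfold av
  have h2 : (2 : ℝ) ^ (q * (k + 1)) = 2 ^ (q * k) * 2 ^ q := by rw [Nat.mul_succ, pow_add]
  rw [h2]
  push_cast
  have h3 : (0 : ℝ) < 2 ^ m := by positivity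
  have h4 : (0 : ℝ) < 2 ^ (q * k) := by positivity
  have h5 : (0 : ℝ) < 2 ^ q := by positivity
  field_simp

/-- the average over the first block of a linear function -/
lemma av_zero (b m q : ℕ) (p : ℕ → ℕ) (c : ℝ) (f : ℝ → ℝ) (hf : IsPol 1 c f) : av b m q p 0 f = Phi b m c := by
  have h1 : ∀ y, f y = c * y + f 0 := by
    intro y
    have h2 := hf y 0 0
    simp only [zero_add, Nat.cast_one, one_mul, sub_zero, add_zero] at h2
    linarith
  unfold av
  have e1 : ∑ i ∈ II m q 0, e (f (zz b p 0 i)) = e (f 0) * ∑ A ∈ (range m).powerset, e (c * XA b A) := by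
    show ∑ A ∈ (range m).powerset, e (f (XA b A)) = _
    rw [mul_sum]
    apply sum_congr rfl
    intro A _
    rw [h1 (XA b A), e_add, mul_comm]
  rw [e1, norm_mul, norm_e, one_mul, norm_sum_e_XA, mul_zero, pow_zero, mul_one, mul_div_assoc]
  have : (2 : ℝ) ^ m ≠ 0 := by positivity
  field_simp

/-- **The bound.** -/
lemma weyl (b m q : ℕ) (hb : 2 ≤ b) (p : ℕ → ℕ) : ∀ (k : ℕ) (f : ℝ → ℝ) (c γ : ℝ) (H N' : ℕ), 1 ≤ H →
    H * b ^ (q * (k + 1)) ≤ N' → IsPol (k + 2) c f →
    ((k + 2).factorial * c = H * γ ∨ (k + 2).factorial * c = -(H * γ)) →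
    av b m q p (k + 1) f ^ (2 ^ (k + 1)) ≤ (k + 1 : ℕ) / 2 ^ q +
      2 / 2 ^ q * ∑ n ∈ Icc 1 N', Phi b m (n * (γ * (b : ℝ) ^ (∑ i ∈ range (k + 1), p i))) := by
  intro k
  have hinj := Finset.geomSum_injective hb
  have hlt : ∀ x ∈ (range q).powerset, XA b x < b ^ q := by
    intro x hx
    rw [mem_powerset] at hx
    exact Nat.geomSum_lt hb (fun i hi => mem_range.mp (hx hi))
  have hq0 : (0 : ℝ) < 2 ^ q := by positivity
  induction k with
  | zero =>
    intro f c γ H N' hH hN hf hc
    obtain ⟨θ, hθ⟩ : ∃ θ : ℝ, θ = γ * (b : ℝ) ^ (∑ i ∈ range (0 + 1), p i) := ⟨_, rfl⟩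
    rw [← hθ]
    have h1 := av_succ_sq b m q p 0 f
    rw [sum_product] at h1
    rw [zero_add, pow_one]
    refine h1.trans ?_
    have h2 : ∀ x ∈ (range q).powerset, ∑ x' ∈ (range q).powerset, (1 / (2 ^ q * 2 ^ q : ℝ)) *
        av b m q p 0 (fun y => f (y + (b ^ p 0 * XA b x : ℕ)) - f (y + (b ^ p 0 * XA b x' : ℕ))) ≤
        (1 / (2 ^ q * 2 ^ q : ℝ)) * (1 + 2 * ∑ n ∈ Icc 1 N', Phi b m (n * θ)) := by
      intro x hx
      rw [← mul_sum]
      apply mul_le_mul_of_nonneg_left _ (by positivity)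
      have h3 := sum_diff (range q).powerset (fun A => XA b A) (fun k _ k' _ hkk => hinj hkk) H N' hH
        (fun A hA => by
          refine le_trans ?_ hN
          rw [zero_add, mul_one]
          exact Nat.mul_le_mul_left _ (hlt A hA).le)
        (Phi b m) (Phi_nonneg b m) (Phi_le_one b m) (Phi_neg b m) θ x hx
      refine le_trans (le_of_eq ?_) h3
      apply sum_congr rfl
      intro x' _
      rw [av_zero b m q p _ _ (hf _ _)]
      rw [zero_add, sum_range_one] at hθ
      have e1 : ((0 + 1 + 1 : ℕ) : ℝ) * c * (((b ^ p 0 * XA b x : ℕ) : ℝ) - (b ^ p 0 * XA b x' : ℕ)) =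
          ((0 + 2).factorial * c) * ((b : ℝ) ^ p 0 * ((XA b x : ℝ) - XA b x')) := by
        push_cast [Nat.factorial]
        ring
      rcases hc with hc | hc
      · rw [e1, hc, hθ]
        congr 1
        ring
      · rw [e1, hc, hθ, ← Phi_neg]
        congr 1
        ring
    refine (sum_le_sum h2).trans (le_of_eq ?_)
    rw [sum_const, card_powerset, card_range, nsmul_eq_mul]
    generalize ∑ n ∈ Icc 1 N', Phi b m (n * θ) = S
    push_cast
    field_simp
  | succ k ih =>
    intro f c γ H N' hH hN hf hc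
    obtain ⟨R, hR⟩ : ∃ R : ℝ, R = (k + 1 : ℕ) / 2 ^ q +
      2 / 2 ^ q * ∑ n ∈ Icc 1 N', Phi b m (n * (γ * (b : ℝ) ^ (∑ i ∈ range (k + 1 + 1), p i))) := ⟨_, rfl⟩
    have hR0 : 0 ≤ R := by
      rw [hR]
      have : 0 ≤ ∑ n ∈ Icc 1 N', Phi b m (n * (γ * (b : ℝ) ^ (∑ i ∈ range (k + 1 + 1), p i))) :=
        sum_nonneg fun _ _ => Phi_nonneg _ _ _
      positivity
    have h1 := av_succ_sq b m q p (k + 1) f
    obtain ⟨G, hG⟩ : ∃ G : Finset ℕ × Finset ℕ → ℝ, G = fun z => av b m q p (k + 1)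
      (fun y => f (y + (b ^ p (k + 1) * XA b z.1 : ℕ)) - f (y + (b ^ p (k + 1) * XA b z.2 : ℕ))) := ⟨_, rfl⟩
    have hG0 : ∀ z, 0 ≤ G z := fun z => by rw [hG]; exact av_nonneg _ _ _ _ _ _
    have hG1 : ∀ z, G z ≤ 1 := fun z => by rw [hG]; exact av_le_one _ _ _ _ _ _
    have h1' : av b m q p (k + 1 + 1) f ^ 2 ≤ ∑ z ∈ (range q).powerset ×ˢ (range q).powerset,
        (1 / (2 ^ q * 2 ^ q : ℝ)) * G z := by
      rw [hG]
      exact h1
    have hcard : ((range q).powerset ×ˢ (range q).powerset).card = 2 ^ q * 2 ^ q := by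
      rw [card_product, card_powerset, card_range]
    have h2 : av b m q p (k + 1 + 1) f ^ (2 ^ (k + 1 + 1)) ≤ ∑ z ∈ (range q).powerset ×ˢ (range q).powerset,
        (1 / (2 ^ q * 2 ^ q : ℝ)) * G z ^ (2 ^ (k + 1)) := by
      rw [pow_succ' 2 (k + 1), pow_mul]
      refine (pow_le_pow_left₀ (by positivity) h1' _).trans ?_
      apply Real.pow_arith_mean_le_arith_mean_pow
      · intro _ _
        positivity
      · rw [sum_const, hcard, nsmul_eq_mul]
        push_cast
        field_simp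
      · intro z _
        exact hG0 z
    refine h2.trans ?_
    have h3 : ∀ z ∈ (range q).powerset ×ˢ (range q).powerset,
        G z ^ (2 ^ (k + 1)) ≤ R + (if z.1 = z.2 then 1 else 0) := by
      intro z hz
      rw [mem_product] at hz
      split_ifs with hzz
      · have := pow_le_one₀ (n := 2 ^ (k + 1)) (hG0 z) (hG1 z)
        linarith
      · rw [add_zero, hR, hG]
        have hx : XA b z.1 ≠ XA b z.2 := fun hh => hzz (hinj hh)
        obtain ⟨H', hH'⟩ : ∃ H' : ℕ, H' = H * (max (XA b z.1) (XA b z.2) - min (XA b z.1) (XA b z.2)) := ⟨_, rfl⟩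
        have hm1 : 1 ≤ max (XA b z.1) (XA b z.2) - min (XA b z.1) (XA b z.2) := by omega
        have hm2 : max (XA b z.1) (XA b z.2) - min (XA b z.1) (XA b z.2) ≤ b ^ q := by
          have h4 := hlt z.1 hz.1
          have h5 := hlt z.2 hz.2
          omega
        have hcast : ((max (XA b z.1) (XA b z.2) - min (XA b z.1) (XA b z.2) : ℕ) : ℝ) =
            ((XA b z.1 : ℝ) - XA b z.2) ∨ ((max (XA b z.1) (XA b z.2) - min (XA b z.1) (XA b z.2) : ℕ) : ℝ) =
            -((XA b z.1 : ℝ) - XA b z.2) := by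
          rcases Nat.lt_or_ge (XA b z.1) (XA b z.2) with h4 | h4
          · right
            rw [max_eq_right h4.le, min_eq_left h4.le, Nat.cast_sub h4.le]
            ring
          · left
            rw [max_eq_left h4, min_eq_right h4, Nat.cast_sub h4]
        have hW := ih (fun y => f (y + (b ^ p (k + 1) * XA b z.1 : ℕ)) - f (y + (b ^ p (k + 1) * XA b z.2 : ℕ))) _
          (γ * (b : ℝ) ^ p (k + 1)) H' N' (by rw [hH']; exact Nat.mul_pos (by omega) (by omega))
          (by
            refine le_trans ?_ hN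
            rw [hH', Nat.mul_succ q (k + 1), pow_add]
            calc H * (max (XA b z.1) (XA b z.2) - min (XA b z.1) (XA b z.2)) * b ^ (q * (k + 1)) ≤
                  H * b ^ q * b ^ (q * (k + 1)) := Nat.mul_le_mul_right _ (Nat.mul_le_mul_left _ hm2)
              _ = H * (b ^ (q * (k + 1)) * b ^ q) := by ring)
          (hf _ _)
          (by
            have e1 : ((k + 2).factorial : ℝ) * (((k + 1 + 1 + 1 : ℕ) : ℝ) * c *
                (((b ^ p (k + 1) * XA b z.1 : ℕ) : ℝ) - (b ^ p (k + 1) * XA b z.2 : ℕ))) =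
                ((k + 1 + 2).factorial * c) * ((b : ℝ) ^ p (k + 1) * ((XA b z.1 : ℝ) - XA b z.2)) := by
              rw [show k + 1 + 2 = (k + 2) + 1 by ring, Nat.factorial_succ (k + 2)]
              push_cast
              ring
            rw [e1, hH']
            push_cast only [Nat.cast_mul]
            rcases hc with hc | hc <;> rcases hcast with h4 | h4
            · left
              rw [hc, h4]
              ring
            · right
              rw [hc, h4]
              ring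
            · right
              rw [hc, h4]
              ring
            · left
              rw [hc, h4]
              ring)
        refine hW.trans (le_of_eq ?_)
        congr 2
        apply sum_congr rfl
        intro n _
        congr 1
        rw [sum_range_succ p (k + 1), pow_add]
        ring
    calc ∑ z ∈ (range q).powerset ×ˢ (range q).powerset, (1 / (2 ^ q * 2 ^ q : ℝ)) * G z ^ (2 ^ (k + 1)) ≤
          ∑ z ∈ (range q).powerset ×ˢ (range q).powerset, (1 / (2 ^ q * 2 ^ q : ℝ)) *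
            (R + (if z.1 = z.2 then 1 else 0)) :=
          sum_le_sum fun z hz => mul_le_mul_of_nonneg_left (h3 z hz) (by positivity)
      _ = R + 1 / 2 ^ q := by
          rw [← mul_sum, sum_add_distrib, sum_const, hcard, nsmul_eq_mul, sum_product]
          have e1 : ∑ x ∈ (range q).powerset, ∑ y ∈ (range q).powerset,
              (if (x, y).1 = (x, y).2 then (1 : ℝ) else 0) = 2 ^ q := by
            have e2 : ∀ x ∈ (range q).powerset, ∑ y ∈ (range q).powerset,
                (if (x, y).1 = (x, y).2 then (1 : ℝ) else 0) = 1 := by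
              intro x hx
              simp only
              rw [sum_ite_eq, if_pos hx]
            rw [sum_congr rfl e2, sum_const, card_powerset, card_range, nsmul_eq_mul, mul_one]
            push_cast
            rfl
          rw [e1]
          push_cast
          field_simp
      _ = (k + 1 + 1 : ℕ) / 2 ^ q + 2 / 2 ^ q * ∑ n ∈ Icc 1 N',
            Phi b m (n * (γ * (b : ℝ) ^ (∑ i ∈ range (k + 1 + 1), p i))) := by
          rw [hR]
          push_cast
          ring

end Pool.Agent.H56.HS
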